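import Pool.Agent.Work.MP_499dc6_lc.FC.Defs

/-!
THEOREM FC: statements.  Every docstring is a complete proof.  No item waits for another one: what may
be used of other items is an explicit hypothesis, or a theorem of `SN/I_*.lean`
(`Pool.Agent.Work.MP_499dc6_lc.SN`), which are all on main.
-/

open MvPolynomial
open scoped PowerSeries

namespace Pool.Agent.Work.MP_499dc6_lc.FC

open Pool.Agent.Work.MP_499dc6_lc.SN

/-! ## A: the relation of the gradients, clearing, base change -/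

/-- **A1** (MEDIUM).  Gradient relation for algebraic elements.
Proof.  The theorem `StT1` of `MP_104cea_lc/DF/Stmts.lean` (proved in `DF/I_T1.lean` on main) gives
`Q : Polynomial (MvPolynomial (Fin r) F)` with `(Q.map (aeval g)).eval G = 0` and
`h := (Q.derivative.map (aeval g)).eval G ≠ 0`.  For a polynomial `Q` and every `u`:
`pderiv u ((Q.map (aeval g)).eval G) = (Q.derivative.map (aeval g)).eval G * pderiv u G +
∑ i, ((Q.map? (pderiv i)).map (aeval g)).eval G * pderiv u (g i)`, where the last polynomial has the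
coefficients `aeval g (pderiv i (Q.coeff n))`: induction on `Q` (sums and monomials `C c * X ^ n`) with the chain
rule `pderiv u (aeval g c) = ∑ i, aeval g (pderiv i c) * pderiv u (g i)` (`StC2` of `DF/Stmts.lean`,
`DF/I_C2.lean`).  `a i = -` that value. -/
def StA1 : Prop := ∀ (F V : Type) [Field F] [CharZero F] (r : ℕ) (g : Fin r → MvPolynomial V F)
  (G : MvPolynomial V F), IsAlgebraic (Algebra.adjoin F (Set.range g)) G → Rel g G

/-- **A2** (EASY-MEDIUM).  Clearing the denominators of all gates.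
Proof.  `SN/I_CL.lean` proves exactly this on the way (`StCL`, whose docstring is the proof; its `C1`, `C2`,
`EX`, `L0` are proved on main: `SN/I_C1.lean` ..): `d j = n j + 2 * ∑ i < j, d i`. -/
def StA2 : Prop := ∀ (k V : Type) [Field k] [Fintype V] (S t : ℕ) (lev : Fin S → ℕ)
  (Q : Fin S → MvPolynomial (V ⊕ Fin S) (LaurentSeries k)) (_ : Lev t lev Q)
  (f : Fin S → MvPolynomial V (LaurentSeries k)) (_ : ∀ j, f j = ev X f (Q j)),
  ∃ (Q' : Fin S → MvPolynomial (V ⊕ Fin S) k⟦X⟧) (f' : Fin S → MvPolynomial V k⟦X⟧) (d : Fin S → ℕ),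
    Lev t lev Q' ∧ (∀ j, f' j = ev X f' (Q' j)) ∧
    ∀ j, MvPolynomial.map (algebraMap k⟦X⟧ (LaurentSeries k)) (f' j) =
      C (algebraMap k⟦X⟧ (LaurentSeries k) (PowerSeries.X ^ d j)) * f j

/-- **A3** (EASY-MEDIUM; hypothesis `SN.StC1`).  The relation over the power series.
Proof.  `StC1` for `h` and for `a i * C (X ^ d i)⁻¹`; take the maximum `N` of the exponents and multiply by the
missing powers: `h'`, `a' i` over `k⟦X⟧` with `map h' = X ^ N * h`, `map (a' i) = X ^ N * X ^ (-d i) * a i`.  Then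
`map (h' * pderiv u G') = X ^ N h pderiv u (map G') = ∑ X ^ N a i pderiv u (g i) = map (∑ a' i * pderiv u (g' i))`
(`pderiv_map`, `pderiv_C_mul`), and `map` is injective; `h' ≠ 0` since `map h' ≠ 0`. -/
def StA3 : Prop := SN.StC1 → ∀ (k V : Type) [Field k] (r : ℕ)
  (g : Fin r → MvPolynomial V (LaurentSeries k)) (g' : Fin r → MvPolynomial V k⟦X⟧) (d : Fin r → ℕ)
  (G' : MvPolynomial V k⟦X⟧)
  (_ : ∀ i, MvPolynomial.map (algebraMap k⟦X⟧ (LaurentSeries k)) (g' i) =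
    C (algebraMap k⟦X⟧ (LaurentSeries k) (PowerSeries.X ^ d i)) * g i)
  (_ : Rel g (MvPolynomial.map (algebraMap k⟦X⟧ (LaurentSeries k)) G')), Rel g' G'

/-- **A4** (EASY-MEDIUM).  Base change along a field homomorphism.
Proof.  As `SN/I_BC.lean` (`StBC`): `Q' j = map (PowerSeries.map φ) (Q j)` and so on.  The relation is mapped by
`MvPolynomial.map (PowerSeries.map φ)`, which is injective (`h` stays nonzero); `pderiv_map`; the image of
`H13.Pe P R` is `H13.Pe (map φ P) (map R)` (`H13.cleared_map`, `Bd/B08.lean`). -/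
def StA4 : Prop := ∀ (k K V : Type) [Field k] [Field K] (φ : k →+* K) (S t r : ℕ)
  (lev : Fin S → ℕ) (P : MvPolynomial V k) (Q : Fin S → MvPolynomial (V ⊕ Fin S) k⟦X⟧)
  (_ : Lev t lev Q) (f : Fin S → MvPolynomial V k⟦X⟧) (_ : ∀ j, f j = ev X f (Q j))
  (s : Fin r → Fin S) (R : MvPolynomial V k⟦X⟧) (_ : Rel (fun i => f (s i)) (H13.Pe P R)),
  ∃ (Q' : Fin S → MvPolynomial (V ⊕ Fin S) K⟦X⟧) (f' : Fin S → MvPolynomial V K⟦X⟧)
    (R' : MvPolynomial V K⟦X⟧), Lev t lev Q' ∧ (∀ j, f' j = ev X f' (Q' j)) ∧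
    Rel (fun i => f' (s i)) (H13.Pe (MvPolynomial.map φ P) R')

/-! ## B: the base point -/

/-- **B1** (EASY).  Proof.  A nonzero polynomial over a domain does not vanish on a product of infinite
sets; the sets are `{c | constantCoeff c = X0 v}`, infinite because they contain
`C (X0 v) + C c * X`, `c ∈ k`.  (`MvPolynomial.funext_set` or induction.) -/
def StB1 : Prop := ∀ (k V : Type) [Field k] [Infinite k] [Finite V] (X0 : V → k)
  (h : MvPolynomial V k⟦X⟧), h ≠ 0 →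
  ∃ x0 : V → k⟦X⟧, (∀ v, PowerSeries.constantCoeff (x0 v) = X0 v) ∧ eval x0 h ≠ 0

/-- **B2** (EASY-MEDIUM).  Proof.  The point `xh` is the image of a point `y` over `T0⟦X⟧`,
`T0 = H13.TR k Ξ` (a domain which embeds into `F0 k Ξ`): `y v = algebraMap (x0 v) + ∑ i, C (X1 v i * thT i)`.
The constant coefficient `T0 → MvPolynomial Ξ k` (`H13.c0`) kills `thT i`, so it maps `aeval y h` (coefficientwise,
`PowerSeries.map`) to the image of `eval x0 h` in `(MvPolynomial Ξ k)⟦X⟧`, which is not zero. -/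
def StB2 : Prop := ∀ (k V Ξ : Type) [Field k] [Fintype Ξ] (x0 : V → k⟦X⟧) (X1 : V → Ξ → k)
  (h : MvPolynomial V k⟦X⟧), eval x0 h ≠ 0 → aeval (xh x0 X1 (th0 k)) h ≠ 0

/-- **B3** (EASY-MEDIUM).  The values of the gradient of `Pe P R` modulo the deformation.
Proof.  `H13.const_aeval`, `pderiv_map`, `H13.map_Pe` (see `hder` in `H13.exists_family`, `Bd/B08.lean`); the
constant coefficient of `xh v` is `algebraMap k F (X0 v) + ∑ i, algebraMap k F (X1 v i) * θ i`. -/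
def StB3 : Prop := ∀ (k V Ξ F : Type) [Field k] [Field F] [Algebra k F] [Fintype Ξ]
  (X0 : V → k) (x0 : V → k⟦X⟧) (_ : ∀ v, PowerSeries.constantCoeff (x0 v) = X0 v)
  (X1 : V → Ξ → k) (θ : Ξ → F) (P : MvPolynomial V k) (R : MvPolynomial V k⟦X⟧) (u : V),
  PowerSeries.constantCoeff (aeval (xh x0 X1 θ) (pderiv u (H13.Pe P R))) =
    aeval (fun v => algebraMap k F (X0 v) + ∑ i, algebraMap k F (X1 v i) * θ i) (pderiv u P)

/-! ## C: linear algebra over the power series -/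

/-- **C1** (EASY-MEDIUM).  A maximal independent subfamily.
Proof.  `exists_linearIndependent'` or `exists_linearIndepOn_extension`, on `Fin r`; the subset is finite of
cardinality `ρ ≤ r`, enumerated by `Fin ρ`. -/
def StC1 : Prop := ∀ (L I : Type) [Field L] (r : ℕ) (J : Fin r → I → L),
  ∃ (ρ : ℕ) (i' : Fin ρ → Fin r), ρ ≤ r ∧ LinearIndependent L (fun a => J (i' a)) ∧
    ∀ i, J i ∈ Submodule.span L (Set.range fun a => J (i' a))

/-- **C2** (EASY-MEDIUM).  A nonzero minor.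
Proof.  The `ρ × I` matrix has rank `ρ`, so its columns span `Fin ρ → L`: choose `ρ` of them forming a basis
(`StC1` for the transpose and the rank, or `exists_linearIndependent'`; column rank = row rank:
`Matrix.rank_transpose`, `LinearIndependent.rank_matrix`); the determinant of a matrix with independent columns is not
zero (`Matrix.linearIndependent_cols_iff_isUnit`, `Matrix.isUnit_iff_isUnit_det`). -/
def StC2 : Prop := ∀ (L I : Type) [Field L] [Fintype I] (ρ : ℕ) (B : Fin ρ → I → L),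
  LinearIndependent L B → ∃ c' : Fin ρ → I, (Matrix.of fun a b => B a (c' b)).det ≠ 0

/-- **C3** (EASY-MEDIUM).  A nonzero minor which divides all the others.
Proof.  Among the finitely many `c'` with nonzero minor choose one whose `PowerSeries.order` is least.  Over a
field a nonzero power series of order `e` is `X ^ e` times a unit, and divides every power series of order at least
`e` (`PowerSeries.X_pow_order_dvd`, `PowerSeries.eq_unit_mul_X_pow..`; or `ValuationRing`, `Finset.exists_min_image`). -/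
def StC3 : Prop := ∀ (F I : Type) [Field F] [Fintype I] (ρ : ℕ) (B : Fin ρ → I → F⟦X⟧),
  (∃ c' : Fin ρ → I, (Matrix.of fun a b => B a (c' b)).det ≠ 0) →
  ∃ c' : Fin ρ → I, (Matrix.of fun a b => B a (c' b)).det ≠ 0 ∧
    ∀ c'' : Fin ρ → I, (Matrix.of fun a b => B a (c' b)).det ∣ (Matrix.of fun a b => B a (c'' b)).det

/-- **C4** (MEDIUM).  Cramer's rule.
Proof.  `D = of (fun a b => B a (c' b))`, `det D = X ^ e * U`, `U` a unit (`F` is a field).  Put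
`M b a = U⁻¹ * (D.adjugate) a b`.  For `v = fun b => B b ι`: `∑ b, M b a * B b ι = U⁻¹ * (D.adjugate.mulVec v) a =
U⁻¹ * D.cramer v a = U⁻¹ * (D.updateCol a v).det` (`Matrix.cramer_eq_adjugate_mulVec`,
`Matrix.cramer_apply`), and `D.updateCol a v` is the matrix for `c'' = Function.update c' a ι`, so this is
`U⁻¹ * det D * q = X ^ e * q`; `c a ι = q`.  For `ι = c' b`: `∑ b', M b' a * D b' b = U⁻¹ * (D.adjugate * D) a b =
U⁻¹ * det D * [a = b] = X ^ e * [a = b]`, so `c a (c' b) = [a = b]` (cancel `X ^ e`).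
`lam a = ∑ b, w (c' b) * U⁻¹ * D.adjugate b a`: from `h * w = ∑ a, y a • B a` (`y a` in `F⟦X⟧`), `h ≠ 0`:
`h * w (c' b) = ∑ a, y a * D a b`, so `h * lam a = ∑ a', y a' * U⁻¹ * (D * D.adjugate) a' a = X ^ e * y a`,
`h * (∑ a, lam a * B a ι) = X ^ e * ∑ a, y a * B a ι = X ^ e * h * w ι`; cancel `h`. -/
def StC4 : Prop := ∀ (F I : Type) [Field F] (ρ : ℕ) (B : Fin ρ → I → F⟦X⟧) (c' : Fin ρ → I),
  (Matrix.of fun a b => B a (c' b)).det ≠ 0 →
  (∀ c'' : Fin ρ → I, (Matrix.of fun a b => B a (c' b)).det ∣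
    (Matrix.of fun a b => B a (c'' b)).det) →
  ∀ (w : I → F⟦X⟧) (h : F⟦X⟧) (y : Fin ρ → F⟦X⟧), h ≠ 0 → (∀ ι, h * w ι = ∑ a, y a * B a ι) →
  ∃ (e : ℕ) (lam : Fin ρ → F⟦X⟧) (M : Fin ρ → Fin ρ → F⟦X⟧) (c : Fin ρ → I → F⟦X⟧),
    (∀ ι, PowerSeries.X ^ e * w ι = ∑ a, lam a * B a ι) ∧
    (∀ a ι, ∑ b, M b a * B b ι = PowerSeries.X ^ e * c a ι) ∧
    ∀ a b, c a (c' b) = if a = b then 1 else 0

/-- **C5** (EASY-MEDIUM; hypotheses `StC1`, `StC2`, `StC3`, `StC4`).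
Proof.  `L = FractionRing F⟦X⟧`.  `StC1` for the images of the rows `J i`: `ρ`, `i'`.  Every `J i` is an
`L`-combination of the `J (i' a)`, so a nonzero multiple of `h * w` (clear the denominators of the coefficients:
`IsLocalization.exist_integer_multiples_of_finset` or multiply the finitely many denominators) is an
`F⟦X⟧`-combination of the rows `B a = J (i' a)`.  `StC2` gives a nonzero minor over `L`, hence over `F⟦X⟧`
(`RingHom.map_det`); `StC3`, `StC4`. -/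
def StC5 : Prop := StC1 → StC2 → StC3 → StC4 →
  ∀ (F I : Type) [Field F] [Fintype I] (r : ℕ) (J : Fin r → I → F⟦X⟧) (w : I → F⟦X⟧) (h : F⟦X⟧)
    (y : Fin r → F⟦X⟧), h ≠ 0 → (∀ ι, h * w ι = ∑ i, y i * J i ι) →
  ∃ (ρ : ℕ) (i' : Fin ρ → Fin r) (c' : Fin ρ → I) (e : ℕ) (lam : Fin ρ → F⟦X⟧)
    (M : Fin ρ → Fin ρ → F⟦X⟧) (c : Fin ρ → I → F⟦X⟧), ρ ≤ r ∧
    (∀ ι, PowerSeries.X ^ e * w ι = ∑ a, lam a * J (i' a) ι) ∧
    (∀ a ι, ∑ b, M b a * J (i' b) ι = PowerSeries.X ^ e * c a ι) ∧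
    ∀ a b, c a (c' b) = if a = b then 1 else 0

/-! ## D: the extended circuit -/

/-- **D1** (EASY-MEDIUM).  The extended circuit has Strahler number at most `t`.
Proof.  `Fin.lastCases`.  Old gates: `rename` with an injective map: exponents of the renamed polynomial are
`μ.mapDomain`, the conditions are transported (`support_rename_of_injective`, `totalDegree_rename_le`); the sum over the
gates of the same level: the last gate has exponent `0`, `Fin.sum_univ_castSucc`.  New gate, level `t`: every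
exponent is `single (inl (inr a)) 1 + single (inr (castSucc (s a))) 1`, total degree `2`, one gate. -/
def StD1 : Prop := ∀ (O V : Type) [CommRing O] (S t ρ : ℕ) (lev : Fin S → ℕ)
  (Q : Fin S → MvPolynomial (V ⊕ Fin S) O) (s : Fin ρ → Fin S), 1 ≤ t → Lev t lev Q →
  Lev t (exl t lev) (exQ Q s)

/-- **D2** (EASY-MEDIUM).  The values of the extended circuit.
Proof.  `Fin.lastCases`, `Fin.snoc_castSucc`, `Fin.snoc_last`; `ev X (exf f s) (rename .. q) = rename inl (ev X f q)`: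
`aeval_rename`, both sides are algebra homomorphisms in `q` (`MvPolynomial.induction_on` or `algHom_ext`). -/
def StD2 : Prop := ∀ (O V : Type) [CommRing O] (S ρ : ℕ)
  (Q : Fin S → MvPolynomial (V ⊕ Fin S) O) (f : Fin S → MvPolynomial V O) (s : Fin ρ → Fin S),
  (∀ j, f j = ev X f (Q j)) → ∀ j, exf f s j = ev X (exf f s) (exQ Q s j)

/-- **D3** (EASY).  Proof.  Leibniz; `pderiv (inl u) (rename inl p) = rename inl (pderiv u p)` (`pderiv_rename` with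
`Sum.inl_injective`), `pderiv (inl u) (X (inr a)) = 0`. -/
def StD3 : Prop := ∀ (O V : Type) [CommRing O] (S ρ : ℕ) (f : Fin S → MvPolynomial V O)
  (s : Fin ρ → Fin S) (u : V), pderiv (Sum.inl u) (exf f s (Fin.last S)) =
    ∑ a, X (Sum.inr a) * rename Sum.inl (pderiv u (f (s a)))

/-- **D4** (EASY).  Proof.  As in `StD1`: the gates used by an old gate are old gates with a smaller number; the
new gate is the last one. -/
def StD4 : Prop := ∀ (O V : Type) [CommRing O] (S ρ : ℕ) (Q : Fin S → MvPolynomial (V ⊕ Fin S) O)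
  (s : Fin ρ → Fin S), Acyc Q → Acyc (exQ Q s)

/-! ## E: linear independence -/

/-- **E1** (EASY-MEDIUM).  Leading coefficients.
Proof.  `Φ (∏ at i ^ n p i) = algebraMap (∏ b i ^ n p i) * ∏ g i ^ n p i`.  The `∏ g i ^ n p i` are independent
over `k⟦X⟧` by `H13.linearIndependent_of_constantCoeff`; so are their multiples by the nonzero elements
`∏ b i ^ n p i` of the domain `k⟦X⟧` (`SN.LI_smul` in `SN/I_LI.lean`); `LinearIndependent.of_comp`. -/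
def StE1 : Prop := ∀ (k A R' N Pt : Type) [Field k] [CommRing A] [Algebra k⟦X⟧ A] [CommRing R']
  [IsDomain R'] [Algebra k R'] [Fintype N] (Φ : A →ₐ[k⟦X⟧] R'⟦X⟧) (at' : N → A) (b : N → k⟦X⟧)
  (g : N → R'⟦X⟧) (n : Pt → N → ℕ), (∀ i, b i ≠ 0) →
  (∀ i, Φ (at' i) = algebraMap k⟦X⟧ R'⟦X⟧ (b i) * g i) →
  LinearIndependent k (fun p => ∏ i, PowerSeries.constantCoeff (g i) ^ n p i) →
  LinearIndependent k⟦X⟧ (fun p => ∏ i, at' i ^ n p i)

/-- **E2** (MEDIUM).  The lowest degree in the new variables.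
Proof.  `linearIndependent_iff'`: let `∑_{p ∈ s} κ p • F p = 0` and suppose some `κ p ≠ 0`; choose such a
`p0 = (j0, δ0)` with `δ0.degree` minimal.  The coefficient of `δ0` in `F (j, δ) = G_j * ∏ X a ^ δ a =
G_j * monomial δ 1` is `0` if `¬ δ ≤ δ0` (`coeff_mul_monomial'`), and for `κ (j, δ) ≠ 0`, `δ ≤ δ0` forces
`δ = δ0` (degrees); it is then the constant coefficient `y j * ∏ d i ^ β j i` of `G_j`.  So
`∑_{j : (j, δ0) ∈ s} κ (j, δ0) • (y j * ∏ d i ^ β j i) = 0`, and `κ p0 = 0`, a contradiction. -/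
def StE2 : Prop := ∀ (k F J I : Type) [Field k] [Field F] [Algebra k F] [Fintype I] (ρ : ℕ)
  (y : J → F) (d : I → F) (β : J → I →₀ ℕ) (c : Fin ρ → I → F),
  LinearIndependent k (fun j => y j * ∏ i, d i ^ β j i) →
  LinearIndependent k (fun p : J × (Fin ρ →₀ ℕ) =>
    ((C (y p.1) * ∏ i, (C (d i) + ∑ a, C (c a i) * X a) ^ β p.1 i) * ∏ a, X a ^ p.2 a :
      MvPolynomial (Fin ρ) F))

/-- **E3** (MEDIUM; hypothesis `StE2`).  The family of leading coefficients.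
Proof.  `H13.base_indep` with `B = 0`, `y = H13.xT dp` (see `sn_LI` in `SN/I_LI.lean`): the products
`∏ thT i ^ α * ∏ aeval (xT) (pderiv (dir i) P) ^ β` are independent over `k` in `T0`, hence in its fraction field
(injective `k`-linear map, `LinearIndependent.map'`); `aeval` at the point of the statement is the image of `aeval (xT)`
(`H13.xT_eq`, `aeval_algebraMap_apply`).  Then `StE2` with `y j = ∏ th0 i ^ α j i`, then `SN.LI_base`
(`SN/I_LI.lean`) with `S + 1` for `S` and `J × (Fin ρ →₀ ℕ)` for `J`; rewrite (`map_mul`, `map_prod`, `map_pow`). -/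
def StE3 : Prop := StE2 → ∀ (k V Ξ Τ I : Type) [Field k] [Fintype V] [DecidableEq V] [Fintype Ξ]
  [Fintype Τ] [IsEmpty Τ] [Fintype I] (P : MvPolynomial V k) (dp : H97.Deep k V Ξ Τ I P)
  (S ρ : ℕ) (c : Fin ρ → I → F0 k Ξ) (J : Type) (α : J → Ξ →₀ ℕ) (β : J → I →₀ ℕ),
  LinearIndependent k (fun j => monomial (α j) (1 : k) * ∏ i, dp.q i ^ (β j i)) →
  LinearIndependent k (fun p : (J × (Fin ρ →₀ ℕ)) × ((Fin (S + 1) →₀ ℕ) × (Fin (S + 1) →₀ ℕ)) =>
    (((∏ i, C (C (th0 k i)) ^ α p.1.1 i) *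
      (∏ i, C (C (aeval (fun v => algebraMap k (F0 k Ξ) (dp.X0 v) +
          ∑ i, algebraMap k (F0 k Ξ) (dp.X1 v i) * th0 k i) (pderiv (dp.dir i) P)) +
        ∑ a, C (c a i) * X a) ^ β p.1.1 i) *
      ∏ a, C (X a) ^ p.1.2 a) *
      ((∏ j, X (Sum.inl j) ^ p.2.1 j) * ∏ j, X (Sum.inr j) ^ p.2.2 j) : RR (F0 k Ξ) ρ S))

/-- **E4** (MEDIUM; hypotheses `SN.StPH`, `StD2`, `StD3`, `StD4`).  The substitution for the extended circuit.
Proof.  `StPH` for `O = k⟦X⟧`, the variables `V ⊕ Fin ρ`, the coordinates `Ξ ⊕ Fin ρ`, `T = (RR F ρ S)⟦X⟧`, the circuit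
`exQ Q s`, `exf f s`, the output `Fin.last S`, `ex0 x0`, `ex1 (C (X1 v i))`, `c = algebraMap (X ^ (e + 1))`,
`W j = C (X (inl j))`, `U j = C (X (inr j))` and
`th = Sum.elim (fun i => C (C (C (θ i)))) (fun a => ι (lam a) + ∑ b, ι (M a b) * C (C (X b)))`, where
`ι = PowerSeries.map (C.comp C) : F⟦X⟧ → (RR F ρ S)⟦X⟧`.  The point of `StPH` is `ι (xh x0 X1 θ v)` for the variable
`inl v` and `th (inr a)` for `inr a`.  By `StD3` the derivative of the output in the direction `inl (dir i)` at this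
point is `∑ a, th (inr a) * ι (J a i)`, `J a i = aeval (xh ..) (pderiv (dir i) (f (s a)))` (`aeval_rename`,
`comp_aeval_apply`), `= ι (X ^ e * w i) + ∑ b, C (C (X b)) * ι (∑ a, M a b * J a i) =
X ^ e * (ι (w i) + ∑ b, ι (c b i) * C (C (X b)))`.  `Φ (Gp ..)` differs from it by a multiple of `X ^ (e + 1)`. -/
def StE4 : Prop := StPH → StD2 → StD3 → StD4 → ∀ (k V Ξ I F : Type) [Field k] [Field F] [Algebra k F]
  [Fintype Ξ] (S ρ : ℕ) (Q : Fin S → MvPolynomial (V ⊕ Fin S) k⟦X⟧) (_ : Acyc Q)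
  (f : Fin S → MvPolynomial V k⟦X⟧) (_ : ∀ j, f j = ev X f (Q j)) (s : Fin ρ → Fin S)
  (x0 : V → k⟦X⟧) (X1 : V → Ξ → k) (θ : Ξ → F) (dir : I → V) (e : ℕ) (lam : Fin ρ → F⟦X⟧)
  (M : Fin ρ → Fin ρ → F⟦X⟧) (w : I → F⟦X⟧) (c : Fin ρ → I → F⟦X⟧)
  (_ : ∀ i, PowerSeries.X ^ e * w i = ∑ a, lam a * aeval (xh x0 X1 θ) (pderiv (dir i) (f (s a))))
  (_ : ∀ a i, ∑ b, M b a * aeval (xh x0 X1 θ) (pderiv (dir i) (f (s b))) =
    PowerSeries.X ^ e * c a i),
  ∃ Φ : MvPolynomial (Var (Ξ ⊕ Fin ρ) (S + 1)) k⟦X⟧ →ₐ[k⟦X⟧] (RR F ρ S)⟦X⟧,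
    (∀ i, Φ (X (Sum.inl (Sum.inl i))) = PowerSeries.C (C (C (θ i)))) ∧
    (∀ j, Φ (Hp (ex0 x0) (ex1 fun v i => PowerSeries.C (X1 v i)) (exQ Q s) j) =
      algebraMap k⟦X⟧ (RR F ρ S)⟦X⟧ (PowerSeries.X ^ (e + 1)) * PowerSeries.C (X (Sum.inl j))) ∧
    (∀ j, Φ (Ha (ex0 x0) (ex1 fun v i => PowerSeries.C (X1 v i)) (exQ Q s) (Fin.last S) j) =
      algebraMap k⟦X⟧ (RR F ρ S)⟦X⟧ (PowerSeries.X ^ (e + 1)) * PowerSeries.C (X (Sum.inr j))) ∧
    ∀ i, ∃ g : (RR F ρ S)⟦X⟧,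
      Φ (Gp (ex0 x0) (ex1 fun v i => PowerSeries.C (X1 v i)) (exQ Q s) (Sum.inl (dir i))) =
        algebraMap k⟦X⟧ (RR F ρ S)⟦X⟧ (PowerSeries.X ^ e) * g ∧
      PowerSeries.constantCoeff g = C (C (PowerSeries.constantCoeff (w i)) +
        ∑ a, C (PowerSeries.constantCoeff (c a i)) * X a)

/-- **E5** (EASY-MEDIUM).  The values of the polynomials `pp`.
Proof.  `Φ (ptx ..) = C (C (C (algebraMap k F (X0 v) + ∑ i, algebraMap k F (X1 v i) * θ i)))` (the terms of the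
new coordinates have the coefficient `0`; `Fintype.sum_sum_type`), and `p ↦` both sides are ring homomorphisms in
`p` (`MvPolynomial.induction_on`). -/
def StE5 : Prop := ∀ (k V Ξ F : Type) [Field k] [Field F] [Algebra k F] [Fintype Ξ] (S ρ : ℕ)
  (X0 : V → k) (X1 : V → Ξ → k) (θ : Ξ → F)
  (Φ : MvPolynomial (Var (Ξ ⊕ Fin ρ) (S + 1)) k⟦X⟧ →ₐ[k⟦X⟧] (RR F ρ S)⟦X⟧)
  (_ : ∀ i, Φ (X (Sum.inl (Sum.inl i))) = PowerSeries.C (C (C (θ i)))) (p : MvPolynomial V k),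
  Φ (pp (fun v => PowerSeries.C (X0 v)) (fun v i => PowerSeries.C (X1 v i))
    (MvPolynomial.map PowerSeries.C p)) =
    PowerSeries.C (C (C (aeval (fun v => algebraMap k F (X0 v) +
      ∑ i, algebraMap k F (X1 v i) * θ i) p)))

/-- **E6** (MEDIUM; the hypotheses are listed).  The family is linearly independent over `k⟦X⟧`.
Proof.  Let `h, a` be the relation, `x0` from `StB1` for `h`, `X0 = dp.X0`; `x := xh x0 dp.X1 (th0 k)`,
`J i ι = aeval x (pderiv (dir ι) (f (s i)))`, `w ι = aeval x (pderiv (dir ι) (Pe P R))`; `aeval x h ≠ 0` (`StB2`);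
`StC5` gives `ρ, i', c', e, lam, M, c`.  Answer: `s' a = s (i' a)`, `c'`, `e`.  `StE4` gives `Φ` and the `g ι`;
the constant coefficient of `w ι` is the value of `StB3`.  Apply `StE1` with the index type
`Ξ ⊕ (I ⊕ (Fin ρ ⊕ (Fin (S + 1) ⊕ Fin (S + 1))))`, the `at'` = the factors of `famF`, `b` = `1`, `X ^ e`, `X ^ e`,
`X ^ (e + 1)`, `X ^ (e + 1)`; for `tt a`: `Φ (tt a) = X ^ e * (g (c' a) - Φ (pp ..))`, with `StE5` the constant
coefficient is `C (X a)`, because `c b (c' a) = [b = a]`.  The leading coefficients are independent by `StE3` (with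
the constant coefficients of `c`). -/
def StE6 : Prop := StPH → StD2 → StD3 → StD4 → StB1 → StB2 → StB3 → StC1 → StC2 → StC3 → StC4 →
  StC5 → StE1 → StE2 → StE3 → StE4 → StE5 →
  ∀ (k V Ξ Τ I : Type) [Field k] [Infinite k] [Fintype V] [DecidableEq V] [Fintype Ξ]
  [Fintype Τ] [IsEmpty Τ] [Fintype I] (P : MvPolynomial V k) (dp : H97.Deep k V Ξ Τ I P) (S r : ℕ)
  (Q : Fin S → MvPolynomial (V ⊕ Fin S) k⟦X⟧) (_ : Acyc Q) (f : Fin S → MvPolynomial V k⟦X⟧)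
  (_ : ∀ j, f j = ev X f (Q j)) (s : Fin r → Fin S) (R : MvPolynomial V k⟦X⟧)
  (_ : Rel (fun i => f (s i)) (H13.Pe P R)),
  ∃ (ρ : ℕ) (s' : Fin ρ → Fin S) (x0 : V → k⟦X⟧) (e : ℕ) (c' : Fin ρ → I), ρ ≤ r ∧
    ∀ (J : Type) (α : J → Ξ →₀ ℕ) (β : J → I →₀ ℕ),
    LinearIndependent k (fun j => monomial (α j) (1 : k) * ∏ i, dp.q i ^ (β j i)) →
    LinearIndependent k⟦X⟧
      (fun p : (J × (Fin ρ →₀ ℕ)) × ((Fin (S + 1) →₀ ℕ) × (Fin (S + 1) →₀ ℕ)) =>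
        famF x0 (fun v => PowerSeries.C (dp.X0 v)) (fun v i => PowerSeries.C (dp.X1 v i)) Q s'
          (PowerSeries.X ^ e) (fun a => dp.dir (c' a))
          (fun a => MvPolynomial.map PowerSeries.C (pderiv (dp.dir (c' a)) P))
          dp.dir (α p.1.1) (β p.1.1) p.1.2 p.2.1 p.2.2)

/-! ## F: weights -/

/-- **F1** (EASY-MEDIUM; hypotheses `SN.StW1`, `SN.StW2`).  The weight of `pp`.
Proof.  `p = ∑ μ ∈ support, monomial μ (coeff μ p)`; `aeval` of it is `C (coeff μ p) * ∏ ptx .. (inl v) ^ μ v`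
(`aeval_monomial`/`aeval_def`, `eval₂_eq'`), `ptx` is a constant plus constants times section coordinates: weight at
most `1`; `∑ v, μ v ≤ p.totalDegree ≤ n`. -/
def StF1 : Prop := StW1 → StW2 → ∀ (O V Ξ : Type) [CommRing O] [Fintype V] [Fintype Ξ] (S ρ : ℕ)
  (X0 : V → O) (x1 : V → Ξ → O) (p : MvPolynomial V O) (n : ℕ) (a a' : Fin (S + 1) → ℕ),
  p.totalDegree ≤ n → WD (wv a a') n (pp (ρ := ρ) (S := S) X0 x1 p)

/-- **F2** (EASY-MEDIUM; hypotheses `SN.StW1`, `SN.StW2`, `SN.StW4`, `StF1`).  The weight of the family.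
Proof.  As `SN/I_W5.lean`, with the additional factor: `tt a` has weight at most `g1` (`StW4` for `Gp`, `g ≤ g1`;
`StF1` for `pp`; `WD` of a difference and of a product with the constant `C b`). -/
def StF2 : Prop := StW1 → StW2 → StW4 → StF1 → ∀ (O V Ξ I : Type) [CommRing O] [Fintype V]
  [Fintype Ξ] [Fintype I] (S ρ : ℕ) (x0 X0 : V → O) (x1 : V → Ξ → O)
  (Q : Fin S → MvPolynomial (V ⊕ Fin S) O) (s : Fin ρ → Fin S) (b : O) (u : Fin ρ → V)
  (p : Fin ρ → MvPolynomial V O) (dir : I → V) (a a' h h' : Fin (S + 1) → ℕ) (g g1 : ℕ),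
  Wt (exQ Q s) a a' h h' g → g ≤ g1 → (∀ a, (p a).totalDegree ≤ g1) →
  ∀ (D0 N : ℕ) (α : Ξ →₀ ℕ) (β : I →₀ ℕ) (δ : Fin ρ →₀ ℕ) (γ γ' : Fin (S + 1) →₀ ℕ),
    α.degree ≤ D0 → β.degree ≤ N →
    WD (wv a a') (D0 + g * N + g1 * ∑ a, δ a + (∑ j, h j * γ j + ∑ j, h' j * γ' j))
      (famF x0 X0 x1 Q s b u p dir α β δ γ γ')

/-! ## G: counting -/

/-- **G6** (MEDIUM, a copy of `SN/I_G6.lean` with one more factor; hypotheses `SN.StG1`, `SN.StG2`, `SN.StG3`,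
`SN.StG5`).
Proof.  As `SN.StG6`: the generating function of the index set is
`|J| z^d (1 - z^g1)^(-ρ) ∏ (1 - z^h)⁻¹ ∏ (1 - z^h')⁻¹` (`StG3` for `Fin ρ` with the constant weight `g1`), that of the
monomials is `(1 - z)^(-(|Ξ| + ρ)) ∏ (1 - z^a)⁻¹ ∏ (1 - z^a')⁻¹`, and `1 - z^g1 ≤ g1 (1 - z)` (`StG5` with
`a = 1`). -/
def StG6 : Prop := StG1 → StG2 → StG3 → StG5 → ∀ (O Ξ J : Type) [CommRing O] [Nontrivial O]
  [Fintype Ξ] [Fintype J] (S ρ : ℕ) (a a' h h' : Fin S → ℕ)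
  (_ : ∀ j, 1 ≤ a j ∧ 1 ≤ a' j ∧ a j ≤ h j ∧ a' j ≤ h' j) (d g1 : ℕ) (_ : 1 ≤ g1)
  (F : (J × (Fin ρ →₀ ℕ)) × ((Fin S →₀ ℕ) × (Fin S →₀ ℕ)) → MvPolynomial (Var (Ξ ⊕ Fin ρ) S) O)
  (_ : LinearIndependent O F)
  (_ : ∀ p, WD (wv a a') (d + g1 * ∑ a, p.1.2 a + (∑ j, h j * p.2.1 j + ∑ j, h' j * p.2.2 j)) (F p))
  (z : ℝ), 0 < z → z < 1 →
  (Fintype.card J : ℝ) * z ^ d * (1 - z) ^ Fintype.card Ξ ≤
    (g1 : ℝ) ^ ρ * ∏ j, ((h j : ℝ) / a j * ((h' j : ℝ) / a' j))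

/-- The conclusion of `E6`, the independence of the family, as a hypothesis. -/
def LI (k V Ξ Τ I : Type) [Field k] [Fintype V] [DecidableEq V] [Fintype Ξ]
    [Fintype Τ] [Fintype I] (P : MvPolynomial V k) (dp : H97.Deep k V Ξ Τ I P) (S ρ : ℕ)
    (Q : Fin S → MvPolynomial (V ⊕ Fin S) k⟦X⟧) (s' : Fin ρ → Fin S) : Prop :=
  ∃ (x0 : V → k⟦X⟧) (e : ℕ) (c' : Fin ρ → I),
    ∀ (J : Type) (α : J → Ξ →₀ ℕ) (β : J → I →₀ ℕ),
    LinearIndependent k (fun j => monomial (α j) (1 : k) * ∏ i, dp.q i ^ (β j i)) →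
    LinearIndependent k⟦X⟧
      (fun p : (J × (Fin ρ →₀ ℕ)) × ((Fin (S + 1) →₀ ℕ) × (Fin (S + 1) →₀ ℕ)) =>
        famF x0 (fun v => PowerSeries.C (dp.X0 v)) (fun v i => PowerSeries.C (dp.X1 v i)) Q s'
          (PowerSeries.X ^ e) (fun a => dp.dir (c' a))
          (fun a => MvPolynomial.map PowerSeries.C (pderiv (dp.dir (c' a)) P))
          dp.dir (α p.1.1) (β p.1.1) p.1.2 p.2.1 p.2.2)

/-- **WB** (EASY-MEDIUM; hypotheses `SN.StNB`, `StF2` (with `StW1`, `StW2`, `StW4`, `StF1`), `StG6` (with its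
hypotheses), `SN.StG7`).  WEIGHTED BEZOUT bound.
Proof.  As `SN/I_WB.lean`: for every `N` the family of `LI` (with `J, α, β` from `StNB`) has the weights of `StF2`
with `d = D0 + g * N`; `StG6` gives the hypothesis of `StG7` for `Pi = g1 ^ ρ * ∏ ..`.  The degrees:
`(map C (pderiv u P)).totalDegree ≤ P.totalDegree ≤ g1`. -/
def StWB : Prop := StNB → StW1 → StW2 → StW4 → StF1 → StF2 → StG1 → StG2 → StG3 → StG5 → StG6 →
  StG7 → ∀ (k V Ξ Τ I : Type) [Field k] [IsAlgClosed k] [Fintype V] [DecidableEq V]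
  [Fintype Ξ] [Fintype Τ] [IsEmpty Τ] [Fintype I] (P : MvPolynomial V k)
  (dp : H97.Deep k V Ξ Τ I P) (_ : ∀ x : Ξ → k, (∀ i, eval x (dp.q i) = 0) → x = 0) (S ρ : ℕ)
  (Q : Fin S → MvPolynomial (V ⊕ Fin S) k⟦X⟧) (s' : Fin ρ → Fin S)
  (_ : LI k V Ξ Τ I P dp S ρ Q s') (a a' h h' : Fin (S + 1) → ℕ) (g g1 : ℕ)
  (_ : Wt (exQ Q s') a a' h h' g) (_ : g ≤ g1) (_ : P.totalDegree ≤ g1) (_ : 1 ≤ Fintype.card Ξ),
  (dp.D : ℝ) ^ Fintype.card Ξ ≤ Real.exp 1 * (Fintype.card Ξ : ℝ) * (g : ℝ) ^ Fintype.card Ξ *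
    ((g1 : ℝ) ^ ρ * ∏ j, ((h j : ℝ) / a j * ((h' j : ℝ) / a' j)))

/-- **WL** (MEDIUM; hypotheses listed).  The bound for a circuit with levels.
Proof.  As `SN/I_WL.lean`.  `StE6` gives `ρ ≤ r`, `s'` and `LI`.  The extended circuit satisfies `Lev` (`StD1`);
`StL3` with `s = ss (exl t lev) κ`, `κ = card Ξ`, `u = ((S + 1) / κ + 1) * ss (t - 1)`, `g = u + ss t + ss (t - 1)`;
`StWB` with `g1 = max g n`.  With `Z` = the number of the statement: `g ^ κ * ∏ ≤ Z ^ κ` (`StN6` for `S + 1`).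
All the factors `h / a`, `h' / a'` are at least `1`, so `g ^ κ ≤ Z ^ κ` and `g ≤ Z`; so `g1 ≤ max Z n` and
`g1 ^ ρ ≤ (max Z n) ^ ρ ≤ (max Z n) ^ r` (`1 ≤ g ≤ Z`). -/
def StWL : Prop := StD1 → StL0 → StL3 → StN6 → StN7 →
  (∀ (k V Ξ Τ I : Type) [Field k] [Infinite k] [Fintype V] [DecidableEq V] [Fintype Ξ]
    [Fintype Τ] [IsEmpty Τ] [Fintype I] (P : MvPolynomial V k) (dp : H97.Deep k V Ξ Τ I P) (S r : ℕ)
    (Q : Fin S → MvPolynomial (V ⊕ Fin S) k⟦X⟧) (_ : Acyc Q) (f : Fin S → MvPolynomial V k⟦X⟧)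
    (_ : ∀ j, f j = ev X f (Q j)) (s : Fin r → Fin S) (R : MvPolynomial V k⟦X⟧)
    (_ : Rel (fun i => f (s i)) (H13.Pe P R)),
    ∃ (ρ : ℕ) (s' : Fin ρ → Fin S), ρ ≤ r ∧ LI k V Ξ Τ I P dp S ρ Q s') →
  (∀ (k V Ξ Τ I : Type) [Field k] [IsAlgClosed k] [Fintype V] [DecidableEq V]
    [Fintype Ξ] [Fintype Τ] [IsEmpty Τ] [Fintype I] (P : MvPolynomial V k)
    (dp : H97.Deep k V Ξ Τ I P) (_ : ∀ x : Ξ → k, (∀ i, eval x (dp.q i) = 0) → x = 0) (S ρ : ℕ)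
    (Q : Fin S → MvPolynomial (V ⊕ Fin S) k⟦X⟧) (s' : Fin ρ → Fin S)
    (_ : LI k V Ξ Τ I P dp S ρ Q s') (a a' h h' : Fin (S + 1) → ℕ) (g g1 : ℕ)
    (_ : Wt (exQ Q s') a a' h h' g) (_ : g ≤ g1) (_ : P.totalDegree ≤ g1)
    (_ : 1 ≤ Fintype.card Ξ),
    (dp.D : ℝ) ^ Fintype.card Ξ ≤ Real.exp 1 * (Fintype.card Ξ : ℝ) * (g : ℝ) ^ Fintype.card Ξ *
      ((g1 : ℝ) ^ ρ * ∏ j, ((h j : ℝ) / a j * ((h' j : ℝ) / a' j)))) →
  ∀ (k V Ξ Τ I : Type) [Field k] [IsAlgClosed k] [Fintype V] [DecidableEq V]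
  [Fintype Ξ] [Fintype Τ] [IsEmpty Τ] [Fintype I] (P : MvPolynomial V k)
  (dp : H97.Deep k V Ξ Τ I P) (_ : ∀ x : Ξ → k, (∀ i, eval x (dp.q i) = 0) → x = 0) (S t r n : ℕ)
  (_ : 1 ≤ t) (lev : Fin S → ℕ) (Q : Fin S → MvPolynomial (V ⊕ Fin S) k⟦X⟧) (_ : Lev t lev Q)
  (f : Fin S → MvPolynomial V k⟦X⟧) (_ : ∀ j, f j = ev X f (Q j)) (s : Fin r → Fin S)
  (R : MvPolynomial V k⟦X⟧) (_ : Rel (fun i => f (s i)) (H13.Pe P R)) (_ : P.totalDegree ≤ n)
  (_ : 1 ≤ Fintype.card Ξ),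
  (dp.D : ℝ) ^ Fintype.card Ξ ≤ Real.exp 1 * (Fintype.card Ξ : ℝ) *
    (3 * Real.exp 2 * (1 + 5.5 * (((S + 1 : ℕ) : ℝ) / (Fintype.card Ξ : ℝ)) / t) ^ t) ^
      Fintype.card Ξ *
    (max (3 * Real.exp 2 * (1 + 5.5 * (((S + 1 : ℕ) : ℝ) / (Fintype.card Ξ : ℝ)) / t) ^ t)
      (n : ℝ)) ^ r

/-- **N8** (MEDIUM, compare `SN/I_N8.lean`).  The final numbers.
Proof.  For `m ≤ 250`: `m ^ (1 - ..) ≤ m ≤ 250 ≤` right side.  Let `m ≥ 251`, so `a ≥ 27`, `κ = 3 a (a + 1) ≥ 2268`.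
Put `Y = (1 + 5.5 ((S + 1) / κ) / t) ^ t ≥ 1`, `Z = 3 e^2 Y`.  `28 κ ≥ m^2` (`a + 1 ≥ m / 9`, `a ≥ (27/28) (a + 1)`), so
`5.5 / κ ≤ 154 / m^2` and `Y ≤ (1 + 160 (S + 1) / (t m^2)) ^ t`.
If `Z ≥ m`: `m ≤ 3 e^2 Y ≤ 22.2 Y` (`e^2 ≤ 7.3891`).  If `Z < m`: the hypothesis is
`a^κ ≤ e κ Z^κ m^r`; `e κ ≤ 1.01^κ` (see `SN.StN8`), and `m^r ≤ m^(28 κ r / m^2) = (m^(28 r / m^2))^κ`
(real powers, `m ≥ 1`), so `a ≤ 1.01 Z m^(28 r / m^2)` (compare `κ`-th powers) and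
`m ≤ 9 (a + 1) ≤ 9 (28/27) a ≤ 210 Y m^(28 r / m^2)`; divide by `m^(28 r / m^2)`. -/
def StN8 : Prop := ∀ (m a S t r : ℕ), 1 ≤ m → 1 ≤ t → 9 * a + 1 ≤ m → m ≤ 9 * a + 9 →
  (1 ≤ a → (a : ℝ) ^ (3 * a * (a + 1)) ≤ Real.exp 1 * ((3 * a * (a + 1) : ℕ) : ℝ) *
    (3 * Real.exp 2 * (1 + 5.5 * (((S + 1 : ℕ) : ℝ) / ((3 * a * (a + 1) : ℕ) : ℝ)) / t) ^ t) ^
      (3 * a * (a + 1)) *
    (max (3 * Real.exp 2 * (1 + 5.5 * (((S + 1 : ℕ) : ℝ) / ((3 * a * (a + 1) : ℕ) : ℝ)) / t) ^ t)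
      (m : ℝ)) ^ r) →
  (m : ℝ) ^ (1 - 28 * (r : ℝ) / (m : ℝ) ^ 2) ≤ 250 * (1 + 160 * (S + 1) / (t * (m : ℝ) ^ 2)) ^ t

/-- **PD** (EASY).  Proof.  `permP` is a sum of products of `m` variables (`totalDegree_finset_sum`,
`totalDegree_finset_prod`). -/
def StPD : Prop := ∀ (k : Type) [Field k] (m : ℕ), (H97.permP m k).totalDegree ≤ m

end Pool.Agent.Work.MP_499dc6_lc.FC
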