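import Mathlib
import Pool.Agent.Work.MP_499dc6_lc.FC.Stmts
import Pool.Agent.Work.MP_499dc6_lc.SN.I_BC

/-!
THEOREM FC, item A4: base change along a field homomorphism.
-/

set_option autoImplicit false

open MvPolynomial
open scoped PowerSeries

namespace Pool.Agent.Work.MP_499dc6_lc.FC

open Pool.Agent.Work.MP_499dc6_lc.SN

theorem A4_rel {O O' V : Type} [CommRing O] [CommRing O'] {r : ℕ} (ψ : O →+* O')
    (hψ : Function.Injective ψ) (g : Fin r → MvPolynomial V O) (G : MvPolynomial V O)
    (hR : Rel g G) : Rel (fun i => MvPolynomial.map ψ (g i)) (MvPolynomial.map ψ G) := by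
  obtain ⟨h, a, hh, hrel⟩ := hR
  refine ⟨MvPolynomial.map ψ h, fun i => MvPolynomial.map ψ (a i), ?_, ?_⟩
  · intro h0
    exact hh (MvPolynomial.map_injective ψ hψ (h0.trans (map_zero _).symm))
  · intro u
    rw [pderiv_map, ← map_mul, hrel u, map_sum]
    refine Finset.sum_congr rfl fun i _ => ?_
    rw [map_mul, pderiv_map]

theorem fc_A4 : StA4 := by
  intro k K V _ _ φ S t r lev P Q hQ f hf s R hR
  refine ⟨fun j => MvPolynomial.map (PowerSeries.map φ) (Q j),
    fun j => MvPolynomial.map (PowerSeries.map φ) (f j),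
    MvPolynomial.map (PowerSeries.map φ) R, BC_lev _ t lev Q hQ, ?_, ?_⟩
  · intro j
    show MvPolynomial.map (PowerSeries.map φ) (f j) = _
    rw [← BC_ev, ← hf j]
  · rw [← BC_Pe]
    exact A4_rel (PowerSeries.map φ) (PowerSeries.map_injective φ φ.injective) _ _ hR

end Pool.Agent.Work.MP_499dc6_lc.FC
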