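import Mathlib
import Pool.Agent.Work.MP_499dc6_lc.FC.Stmts
import Pool.Agent.Work.MP_104cea_lc.DF.I_T1
import Pool.Agent.Work.MP_104cea_lc.DF.I_C2

/-!
# THEOREM FC, item A1: the gradient relation for algebraic elements
-/

set_option autoImplicit false

namespace Pool.Agent.Work.MP_499dc6_lc.FC

open MvPolynomial
open scoped PowerSeries
open Pool.Agent.Work.MP_499dc6_lc.SN

/-- the coefficient-wise part of the derivative of a substitution -/
lemma A1_chain (F V : Type) [Field F] (r : ℕ) (g : Fin r → MvPolynomial V F)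
    (G : MvPolynomial V F) (Q : Polynomial (MvPolynomial (Fin r) F)) :
    ∃ a : Fin r → MvPolynomial V F, ∀ u : V,
      pderiv u ((Q.map (aeval g : MvPolynomial (Fin r) F →ₐ[F] MvPolynomial V F).toRingHom).eval
        G) =
      (Q.derivative.map (aeval g : MvPolynomial (Fin r) F →ₐ[F] MvPolynomial V F).toRingHom).eval
        G * pderiv u G + ∑ i, a i * pderiv u (g i) := by
  set φ : MvPolynomial (Fin r) F →+* MvPolynomial V F :=
    (aeval g : MvPolynomial (Fin r) F →ₐ[F] MvPolynomial V F).toRingHom with hφ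
  induction Q using Polynomial.induction_on' with
  | add p q hp hq =>
    obtain ⟨a, ha⟩ := hp
    obtain ⟨b, hb⟩ := hq
    refine ⟨fun i => a i + b i, fun u => ?_⟩
    rw [Polynomial.map_add, Polynomial.eval_add, map_add, ha, hb, Polynomial.derivative_add,
      Polynomial.map_add, Polynomial.eval_add]
    have h1 : ∑ i, (a i + b i) * pderiv u (g i) =
        ∑ i, a i * pderiv u (g i) + ∑ i, b i * pderiv u (g i) := by
      rw [← Finset.sum_add_distrib]
      exact Finset.sum_congr rfl fun i _ => add_mul _ _ _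
    rw [h1]
    ring
  | monomial n c =>
    refine ⟨fun i => φ (pderiv i c) * G ^ n, fun u => ?_⟩
    have hc : pderiv u (φ c) = ∑ i, φ (pderiv i c) * pderiv u (g i) :=
      Pool.Agent.Work.MP_104cea_lc.DF.df_C2 F V r g c u
    rw [Polynomial.map_monomial, Polynomial.eval_monomial, Polynomial.derivative_monomial,
      Polynomial.map_monomial, Polynomial.eval_monomial, pderiv_mul, hc, pderiv_pow,
      Finset.sum_mul, map_mul, map_natCast]
    have h1 : ∑ i, φ (pderiv i c) * G ^ n * pderiv u (g i) =
        ∑ i, φ (pderiv i c) * pderiv u (g i) * G ^ n :=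
      Finset.sum_congr rfl fun i _ => by ring
    rw [h1]
    ring

/-- item A1 -/
theorem fc_A1 : StA1 := by
  intro F V _ _ r g G hG
  obtain ⟨Q, hQ0, hQ1⟩ := Pool.Agent.Work.MP_104cea_lc.DF.df_T1 F V r g G hG
  obtain ⟨a, ha⟩ := A1_chain F V r g G Q
  refine ⟨_, fun i => - a i, hQ1, fun u => ?_⟩
  have h1 := ha u
  rw [hQ0, map_zero] at h1
  have h2 : ∑ i, -a i * pderiv u (g i) = -∑ i, a i * pderiv u (g i) := by
    rw [← Finset.sum_neg_distrib]
    exact Finset.sum_congr rfl fun i _ => by ring
  rw [h2]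
  exact eq_neg_of_add_eq_zero_left h1.symm

end Pool.Agent.Work.MP_499dc6_lc.FC
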