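import Mathlib
import Pool.Agent.Work.MP_499dc6_lc.FC.Stmts
import Pool.Agent.Work.MP_499dc6_lc.SN.I_CL
import Pool.Agent.Work.MP_499dc6_lc.SN.I_C1
import Pool.Agent.Work.MP_499dc6_lc.SN.I_C2
import Pool.Agent.Work.MP_499dc6_lc.SN.I_CG
import Pool.Agent.Work.MP_499dc6_lc.SN.I_EX
import Pool.Agent.Work.MP_499dc6_lc.SN.I_L0

/-!
# THEOREM FC, item A2: clearing the denominators of all gates of a circuit

Copy of `SN/I_CL.lean` (helper57), for all gates at once.
-/

set_option autoImplicit false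

namespace Pool.Agent.Work.MP_499dc6_lc.FC

open MvPolynomial
open scoped PowerSeries
open Pool.Agent.Work.MP_499dc6_lc.SN

/-- the main step, with the items of block SN as hypotheses -/
theorem A2_core (hC1 : SN.StC1) (hC2 : SN.StC2) (hEX : SN.StEX) (hL0 : SN.StL0) : StA2 := by
  intro k V _ _ S t lev Q hQ f hf
  -- common denominators
  choose n q' hq1 hq2 using fun j => hC1 k (V ⊕ Fin S) (Q j)
  obtain ⟨d, hd⟩ : ∃ d : Fin S → ℕ, ∀ j, d j = 3 * (∑ l, n l) * 3 ^ (j : ℕ) := ⟨_, fun _ => rfl⟩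
  have hsum : ∀ j, ∀ μ ∈ (q' j).support, ∑ i, d i * μ (Sum.inr i) ≤ d j - n j := by
    intro j μ hμ
    simp_rw [hd]
    have h1 := hQ j
    have hμ' : μ ∈ (Q j).support := hq1 j hμ
    exact CL_sum n j μ (fun i hi => ((h1.2.2.2 μ hμ').1 i hi).1)
      ((le_totalDegree hμ').trans h1.2.2.1)
  choose Q' hQ1 hQ2 using fun j => hC2 k V S d (d j - n j) (q' j) (hsum j)
  have hsub : ∀ j, (Q' j).support ⊆ (Q j).support := fun j => (hQ1 j).trans (hq1 j)
  have hLev : Lev t lev Q' := by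
    intro j
    obtain ⟨h1, h2, h3, h4⟩ := hQ j
    refine ⟨h1, h2, ?_, fun μ hμ => h4 μ (hsub j hμ)⟩
    refine le_trans ?_ h3
    unfold totalDegree
    exact Finset.sup_mono (hsub j)
  have hAc : Acyc Q' := hL0 _ _ S t lev Q' hLev
  obtain ⟨f', hf'⟩ := hEX k⟦X⟧ V (MvPolynomial V k⟦X⟧) S Q' hAc X (fun _ => 0)
  have hf2 : ∀ j, f' j = ev X f' (Q' j) := by
    intro j
    have := hf' j
    rwa [add_zero] at this
  -- the comparison
  obtain ⟨φ, hφ⟩ : ∃ φ : MvPolynomial V k⟦X⟧ →ₐ[k⟦X⟧] MvPolynomial V (LaurentSeries k),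
      ∀ p, φ p = MvPolynomial.map (algebraMap k⟦X⟧ (LaurentSeries k)) p :=
    ⟨mapAlgHom (Algebra.ofId k⟦X⟧ (LaurentSeries k)), fun _ => rfl⟩
  have hφX : ∀ v : V, φ (X v) = X v := by
    intro v
    rw [hφ, map_X]
  have hv : ∀ j, φ (f' j) = ev (O := k⟦X⟧) X (fun i => φ (f' i)) (Q' j) := by
    intro j
    conv_lhs => rw [hf2 j]
    unfold ev
    rw [comp_aeval_apply]
    congr 2
    funext i
    cases i with
    | inl i => exact hφX i
    | inr i => rfl
  have hv' : ∀ j, algebraMap k⟦X⟧ (MvPolynomial V (LaurentSeries k)) (PowerSeries.X ^ d j) * f j =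
      ev (O := k⟦X⟧) X (fun i => algebraMap k⟦X⟧ (MvPolynomial V (LaurentSeries k))
        (PowerSeries.X ^ d i) * f i) (Q' j) := by
    intro j
    rw [hQ2 j]
    have h1 : ev (O := k⟦X⟧) (X : V → MvPolynomial V (LaurentSeries k)) f (q' j) =
        algebraMap k⟦X⟧ (MvPolynomial V (LaurentSeries k)) (PowerSeries.X ^ n j) * f j := by
      have h2 : ev (O := k⟦X⟧) (X : V → MvPolynomial V (LaurentSeries k)) f (q' j) =
          ev (O := LaurentSeries k) X f
            (MvPolynomial.map (algebraMap k⟦X⟧ (LaurentSeries k)) (q' j)) := by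
        unfold ev
        rw [aeval_map_algebraMap]
      rw [h2, hq2 j, map_mul, ← hf j]
      congr 1
      unfold ev
      rw [aeval_C]
      rfl
    rw [h1, ← mul_assoc, ← map_mul, ← pow_add]
    congr 3
    have := CL_nle n j
    rw [← hd] at this
    omega
  have key : ∀ m : ℕ, ∀ j : Fin S, (j : ℕ) < m → φ (f' j) =
      algebraMap k⟦X⟧ (MvPolynomial V (LaurentSeries k)) (PowerSeries.X ^ d j) * f j := by
    intro m
    induction m with
    | zero => intro j hj; omega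
    | succ m ih =>
      intro j hj
      rw [hv j, hv' j]
      refine CL_congr (Q' j) j (hAc j) X _ _ ?_
      intro i hi
      have hi' : (i : ℕ) < j := hi
      exact ih i (by omega)
  refine ⟨Q', f', d, hLev, hf2, fun j => ?_⟩
  have h1 := key S j j.2
  rw [hφ] at h1
  rw [h1]
  rfl

/-- item A2 -/
theorem fc_A2 : StA2 := A2_core sn_C1 sn_C2 (sn_EX sn_CG) sn_L0

end Pool.Agent.Work.MP_499dc6_lc.FC
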