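import Mathlib
import Pool.Agent.Work.MP_499dc6_lc.FC.Stmts

/-!
# THEOREM FC, item A3: the relation of the gradients over the power series (helper39)
-/

set_option autoImplicit false

open MvPolynomial
open scoped PowerSeries

namespace Pool.Agent.Work.MP_499dc6_lc.FC

open Pool.Agent.Work.MP_499dc6_lc.SN

/-- A3 -/
theorem fc_A3 : StA3 := by
  intro hC1 k V _ r g g' d G' hg hR
  obtain ⟨h, a, hh, hrel⟩ := hR
  obtain ⟨n0, h1, -, hh1⟩ := hC1 k V h
  choose n a1 _ ha1 using fun i => hC1 k V (a i)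
  have hinj : Function.Injective (algebraMap k⟦X⟧ (LaurentSeries k)) :=
    IsFractionRing.injective k⟦X⟧ (LaurentSeries k)
  have hinj' : Function.Injective
      (MvPolynomial.map (σ := V) (algebraMap k⟦X⟧ (LaurentSeries k))) :=
    MvPolynomial.map_injective _ hinj
  set N : ℕ := n0 + ∑ i, (n i + d i) with hN
  have hle : ∀ i, n i + d i ≤ N := fun i =>
    (Finset.single_le_sum (f := fun i => n i + d i) (fun _ _ => Nat.zero_le _)
      (Finset.mem_univ i)).trans (Nat.le_add_left _ _)
  have key1 : MvPolynomial.map (algebraMap k⟦X⟧ (LaurentSeries k))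
      (C (PowerSeries.X ^ (∑ i, (n i + d i))) * h1) =
      C (algebraMap k⟦X⟧ (LaurentSeries k) (PowerSeries.X ^ N)) * h := by
    rw [map_mul, MvPolynomial.map_C, hh1, hN, pow_add, map_mul, C_mul]
    ring
  have key2 : ∀ i, MvPolynomial.map (algebraMap k⟦X⟧ (LaurentSeries k))
      (C (PowerSeries.X ^ (N - (n i + d i))) * a1 i) *
        C (algebraMap k⟦X⟧ (LaurentSeries k) (PowerSeries.X ^ d i)) =
      C (algebraMap k⟦X⟧ (LaurentSeries k) (PowerSeries.X ^ N)) * a i := by
    intro i
    have hs : N = (N - (n i + d i)) + n i + d i := by have := hle i; omega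
    have e : (C (algebraMap k⟦X⟧ (LaurentSeries k) (PowerSeries.X ^ N)) :
        MvPolynomial V (LaurentSeries k)) =
        C (algebraMap k⟦X⟧ (LaurentSeries k) (PowerSeries.X ^ (N - (n i + d i)))) *
          C (algebraMap k⟦X⟧ (LaurentSeries k) (PowerSeries.X ^ n i)) *
          C (algebraMap k⟦X⟧ (LaurentSeries k) (PowerSeries.X ^ d i)) := by
      rw [← C_mul, ← C_mul, ← map_mul, ← map_mul, ← pow_add, ← pow_add, ← hs]
    rw [map_mul, MvPolynomial.map_C, ha1 i, e]
    ring
  refine ⟨C (PowerSeries.X ^ (∑ i, (n i + d i))) * h1,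
    fun i => C (PowerSeries.X ^ (N - (n i + d i))) * a1 i, ?_, fun u => ?_⟩
  · intro h0
    rw [h0, map_zero] at key1
    have hX : C (algebraMap k⟦X⟧ (LaurentSeries k) (PowerSeries.X ^ N)) ≠
        (0 : MvPolynomial V (LaurentSeries k)) := by
      rw [Ne, C_eq_zero, map_eq_zero_iff _ hinj]
      exact pow_ne_zero _ PowerSeries.X_ne_zero
    exact mul_ne_zero hX hh key1.symm
  · apply hinj'
    rw [map_mul, key1, map_sum]
    have e1 : ∀ i, MvPolynomial.map (algebraMap k⟦X⟧ (LaurentSeries k))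
        ((C (PowerSeries.X ^ (N - (n i + d i))) * a1 i) * pderiv u (g' i)) =
        C (algebraMap k⟦X⟧ (LaurentSeries k) (PowerSeries.X ^ N)) * (a i * pderiv u (g i)) := by
      intro i
      rw [map_mul, ← pderiv_map, hg i, pderiv_C_mul, ← mul_assoc, ← mul_assoc, key2 i]
    rw [Finset.sum_congr rfl fun i _ => e1 i, ← Finset.mul_sum, ← hrel u, ← pderiv_map, mul_assoc]

end Pool.Agent.Work.MP_499dc6_lc.FC
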