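import Mathlib
import Pool.Agent.Work.MP_499dc6_lc.FC.Stmts

/-!
THEOREM FC, item B1: the base point.
-/

namespace Pool.Agent.Work.MP_499dc6_lc.FC

open MvPolynomial
open scoped PowerSeries
open Pool.Agent.Work.MP_499dc6_lc.SN

theorem fc_B1 : StB1 := by
  intro k V _ _ _ X0 h hh
  by_contra hne
  push_neg at hne
  apply hh
  have hinf : ∀ v : V, Set.Infinite {c : k⟦X⟧ | PowerSeries.constantCoeff c = X0 v} := by
    intro v
    have hi : Function.Injective (fun c : k => (PowerSeries.C (X0 v) + PowerSeries.C c * PowerSeries.X : k⟦X⟧)) := by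
      intro c d hcd
      have h1 := congrArg (PowerSeries.coeff 1) hcd
      simpa using h1
    refine (Set.infinite_range_of_injective hi).mono ?_
    rintro _ ⟨c, rfl⟩
    simp
  refine MvPolynomial.funext_set (fun v => {c : k⟦X⟧ | PowerSeries.constantCoeff c = X0 v}) hinf ?_
  intro x hx
  rw [map_zero]
  exact hne x fun v => hx v (Set.mem_univ v)

end Pool.Agent.Work.MP_499dc6_lc.FC
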