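import Mathlib
import Pool.Agent.Work.MP_499dc6_lc.FC.Stmts

/-!
THEOREM FC, item B2: the generic point of the section (helper60)
-/

open MvPolynomial
open scoped PowerSeries

namespace Pool.Agent.Work.MP_499dc6_lc.FC

open Pool.Agent.Work.MP_499dc6_lc.SN

theorem B2_inj {A B : Type} [CommRing A] [CommRing B] (f : A →+* B) (hf : Function.Injective f) :
    Function.Injective (PowerSeries.map f) := by
  intro a b hab
  ext n
  have h1 := congrArg (PowerSeries.coeff n) hab
  rw [PowerSeries.coeff_map, PowerSeries.coeff_map] at h1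
  exact hf h1

theorem fc_B2 : StB2 := by
  intro k V Ξ _ _ x0 X1 h hh
  classical
  set ψ : k⟦X⟧ →+* (H13.TR k Ξ)⟦X⟧ := PowerSeries.map (algebraMap k (H13.TR k Ξ)) with hψ
  set y : V → (H13.TR k Ξ)⟦X⟧ := fun v => ψ (x0 v) +
    ∑ i, PowerSeries.C (algebraMap k (H13.TR k Ξ) (X1 v i) * H13.thT k i) with hy
  -- the image over the fraction field
  have h1 : PowerSeries.map (algebraMap (H13.TR k Ξ) (F0 k Ξ)) (eval₂ ψ y h) =
      aeval (xh x0 X1 (th0 k)) h := by
    rw [MvPolynomial.hom_eval₂, MvPolynomial.aeval_def]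
    have e1 : (PowerSeries.map (algebraMap (H13.TR k Ξ) (F0 k Ξ))).comp ψ =
        algebraMap k⟦X⟧ (F0 k Ξ)⟦X⟧ := by
      refine RingHom.ext fun f => PowerSeries.ext fun n => ?_
      rw [RingHom.comp_apply, PowerSeries.coeff_map, hψ, PowerSeries.coeff_map,
        PowerSeries.algebraMap_apply'', PowerSeries.coeff_map, ← IsScalarTower.algebraMap_apply]
    have e2 : (⇑(PowerSeries.map (algebraMap (H13.TR k Ξ) (F0 k Ξ))) ∘ y) =
        xh x0 X1 (th0 k) := by
      funext v
      simp only [Function.comp_apply, hy, xh, map_add, map_sum, PowerSeries.map_C, map_mul, th0,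
        ← IsScalarTower.algebraMap_apply]
      congr 1
    rw [e1]
    exact congrArg (fun z => eval₂ (algebraMap k⟦X⟧ (F0 k Ξ)⟦X⟧) z h) e2
  -- the constant term
  have h2 : PowerSeries.map (PowerSeries.constantCoeff (R := MvPolynomial Ξ k)) (eval₂ ψ y h) =
      PowerSeries.map (C : k →+* MvPolynomial Ξ k) (eval x0 h) := by
    rw [MvPolynomial.hom_eval₂, MvPolynomial.eval, MvPolynomial.coe_eval₂Hom,
      MvPolynomial.hom_eval₂]
    have e1 : (PowerSeries.map (PowerSeries.constantCoeff (R := MvPolynomial Ξ k))).comp ψ =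
        PowerSeries.map (C : k →+* MvPolynomial Ξ k) := by
      refine RingHom.ext fun f => PowerSeries.ext fun n => ?_
      rw [RingHom.comp_apply, PowerSeries.coeff_map, hψ, PowerSeries.coeff_map,
        PowerSeries.coeff_map]
      simp [PowerSeries.algebraMap_apply, MvPolynomial.algebraMap_eq]
    have e2 : (⇑(PowerSeries.map (PowerSeries.constantCoeff (R := MvPolynomial Ξ k))) ∘ y) =
        ⇑(PowerSeries.map (C : k →+* MvPolynomial Ξ k)) ∘ x0 := by
      funext v
      simp only [Function.comp_apply, hy, map_add, map_sum, PowerSeries.map_C, map_mul, H13.thT,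
        PowerSeries.constantCoeff_X, zero_mul, mul_zero, map_zero, Finset.sum_const_zero, add_zero]
      exact RingHom.congr_fun e1 (x0 v)
    rw [e1, RingHom.comp_id]
    exact congrArg (fun z => eval₂ (PowerSeries.map (C : k →+* MvPolynomial Ξ k)) z h) e2
  intro h0
  rw [← h1] at h0
  have h3 : eval₂ ψ y h = 0 :=
    B2_inj _ (IsFractionRing.injective (H13.TR k Ξ) (F0 k Ξ)) (by rw [h0, map_zero])
  rw [h3, map_zero] at h2
  exact hh (B2_inj _ (MvPolynomial.C_injective Ξ k) (by rw [← h2, map_zero]))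

end Pool.Agent.Work.MP_499dc6_lc.FC
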