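import Mathlib
import Pool.Agent.Work.MP_499dc6_lc.FC.Stmts

/-!
THEOREM FC, item B3: the values of the gradient of the deformed polynomial modulo the deformation.
-/

open MvPolynomial
open scoped PowerSeries

namespace Pool.Agent.Work.MP_499dc6_lc.FC

open Pool.Agent.Work.MP_499dc6_lc.SN

theorem B3_cc {k T : Type} [Field k] [Field T] [Algebra k T] (a : k⟦X⟧) :
    PowerSeries.constantCoeff (algebraMap k⟦X⟧ T⟦X⟧ a) =
      algebraMap k T (PowerSeries.constantCoeff a) := by
  rw [PowerSeries.algebraMap_apply'', ← PowerSeries.coeff_zero_eq_constantCoeff_apply,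
    PowerSeries.coeff_map, PowerSeries.coeff_zero_eq_constantCoeff_apply]

theorem B3_const {k V T : Type} [Field k] [Field T] [Algebra k T] (y : V → T⟦X⟧)
    (Q : MvPolynomial V k⟦X⟧) :
    PowerSeries.constantCoeff (aeval y Q) =
      aeval (fun v => PowerSeries.constantCoeff (y v))
        (MvPolynomial.map PowerSeries.constantCoeff Q) := by
  induction Q using MvPolynomial.induction_on with
  | C a => rw [aeval_C, map_C, aeval_C, B3_cc]
  | add p q hp hq => rw [map_add, map_add, map_add, map_add, hp, hq]
  | mul_X p v hp => rw [map_mul, map_mul, map_mul, map_mul, hp, aeval_X, map_X, aeval_X]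

theorem B3_Pe {k V : Type} [Field k] (P : MvPolynomial V k) (R : MvPolynomial V k⟦X⟧) :
    MvPolynomial.map PowerSeries.constantCoeff (H13.Pe P R) = P := by
  rw [H13.Pe, map_add, map_mul, map_C, MvPolynomial.map_map]
  have h1 : (PowerSeries.constantCoeff (R := k)).comp PowerSeries.C = RingHom.id k := by
    ext a
    simp
  rw [h1, MvPolynomial.map_id]
  simp

theorem fc_B3 : StB3 := by
  intro k V Ξ F _ _ _ _ X0 x0 hx0 X1 θ P R u
  rw [B3_const, ← pderiv_map, B3_Pe]
  congr 2
  funext v
  rw [xh, map_add, B3_cc, hx0, map_sum]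
  congr 1

end Pool.Agent.Work.MP_499dc6_lc.FC
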