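import Mathlib
import Pool.Agent.Work.MP_499dc6_lc.FC.Stmts

/-!
THEOREM FC, item C2: a nonzero minor.
-/

open MvPolynomial
open scoped PowerSeries

namespace Pool.Agent.Work.MP_499dc6_lc.FC

open Pool.Agent.Work.MP_499dc6_lc.SN

theorem fc_C2 : StC2 := by
  intro L I _ _ ρ B hB
  obtain ⟨A, hA⟩ : ∃ A : Matrix (Fin ρ) I L, A = Matrix.of B := ⟨_, rfl⟩
  have hrank : A.rank = ρ := by
    have h1 : LinearIndependent L A.row := by
      rw [hA]
      exact hB
    rw [h1.rank_matrix, Fintype.card_fin]
  obtain ⟨κ, a, ha, hspan, hli⟩ := exists_linearIndependent' L A.col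
  have hfin : Finite κ := Finite.of_injective a ha
  have hft : Fintype κ := Fintype.ofFinite κ
  have hcard : Fintype.card κ = ρ := by
    have h1 := finrank_span_eq_card hli
    rw [hspan, ← Matrix.rank_eq_finrank_span_cols, hrank] at h1
    exact h1.symm
  let e : Fin ρ ≃ κ := (finCongr hcard.symm).trans (Fintype.equivFin κ).symm
  refine ⟨fun b => a (e b), ?_⟩
  have h2 : LinearIndependent L (Matrix.of fun (i : Fin ρ) (b : Fin ρ) => B i (a (e b))).col := by
    have h3 := hli.comp e e.injective
    have h4 : (Matrix.of fun (i : Fin ρ) (b : Fin ρ) => B i (a (e b))).col =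
        (A.col ∘ a) ∘ e := by
      rw [hA]
      rfl
    rw [h4]
    exact h3
  have h5 := (Matrix.linearIndependent_cols_iff_isUnit).1 h2
  exact ((Matrix.isUnit_iff_isUnit_det _).1 h5).ne_zero

end Pool.Agent.Work.MP_499dc6_lc.FC
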