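import Mathlib
import Pool.Agent.Work.MP_499dc6_lc.FC.Stmts

/-!
THEOREM FC, item C3: a nonzero minor which divides all the others.
-/

open MvPolynomial
open scoped PowerSeries

namespace Pool.Agent.Work.MP_499dc6_lc.FC

open Pool.Agent.Work.MP_499dc6_lc.SN

/-- Over a field, comparison of orders gives divisibility. -/
theorem C3_dvd {F : Type} [Field F] (f g : F⟦X⟧) (hf : f ≠ 0)
    (h : PowerSeries.order f ≤ PowerSeries.order g) : f ∣ g := by
  by_cases hg : g = 0
  · rw [hg]
    exact dvd_zero f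
  · have h1 : f.order.toNat ≤ g.order.toNat := by
      have h2 := PowerSeries.coe_toNat_order hf
      have h3 := PowerSeries.coe_toNat_order hg
      rw [← h2, ← h3] at h
      exact_mod_cast h
    have hu : IsUnit (PowerSeries.divXPowOrder f) :=
      PowerSeries.isUnit_divided_by_X_pow_order hf
    have h4 : (PowerSeries.X : F⟦X⟧) ^ f.order.toNat * PowerSeries.divXPowOrder f = f :=
      PowerSeries.X_pow_order_mul_divXPowOrder
    rw [← h4]
    refine (IsUnit.mul_right_dvd hu).2 ?_
    exact (pow_dvd_pow _ h1).trans PowerSeries.X_pow_order_dvd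

theorem fc_C3 : StC3 := by
  intro F I _ _ ρ B ⟨c₀, hc₀⟩
  obtain ⟨m, hm, hmin⟩ := (InvImage.wf (fun c' : Fin ρ → I =>
    PowerSeries.order (Matrix.of fun a b => B a (c' b)).det) wellFounded_lt).has_min
    {c' | (Matrix.of fun a b => B a (c' b)).det ≠ 0} ⟨c₀, hc₀⟩
  refine ⟨m, hm, fun c'' => ?_⟩
  by_cases h : (Matrix.of fun a b => B a (c'' b)).det = 0
  · rw [h]
    exact dvd_zero _
  · exact C3_dvd _ _ hm (not_lt.1 (hmin c'' h))

end Pool.Agent.Work.MP_499dc6_lc.FC
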