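import Mathlib
import Pool.Agent.Work.MP_499dc6_lc.FC.Stmts

/-!
THEOREM FC, item C4: Cramer's rule (helper60)
-/

open MvPolynomial
open scoped PowerSeries

namespace Pool.Agent.Work.MP_499dc6_lc.FC

open Pool.Agent.Work.MP_499dc6_lc.SN

/-- a nonzero power series over a field is a power of `X` times a unit -/
theorem C4_fac {F : Type} [Field F] (d : F⟦X⟧) (hd : d ≠ 0) :
    ∃ (e : ℕ) (U' : F⟦X⟧), U' * d = PowerSeries.X ^ e := by
  refine ⟨d.order.toNat, (PowerSeries.divXPowOrder d)⁻¹, ?_⟩
  have h1 : PowerSeries.X ^ d.order.toNat * PowerSeries.divXPowOrder d = d :=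
    PowerSeries.X_pow_order_mul_divXPowOrder
  have h2 : PowerSeries.constantCoeff (PowerSeries.divXPowOrder d) ≠ 0 := by
    rw [Ne, PowerSeries.constantCoeff_divXPowOrder_eq_zero_iff]
    exact hd
  calc (PowerSeries.divXPowOrder d)⁻¹ * d
      = (PowerSeries.divXPowOrder d)⁻¹ *
          (PowerSeries.X ^ d.order.toNat * PowerSeries.divXPowOrder d) := by rw [h1]
    _ = PowerSeries.X ^ d.order.toNat *
          ((PowerSeries.divXPowOrder d)⁻¹ * PowerSeries.divXPowOrder d) := by ring
    _ = _ := by rw [PowerSeries.inv_mul_cancel _ h2, mul_one]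

theorem fc_C4 : StC4 := by
  intro F I _ ρ B c' hdet hdvd w h y hh hw
  classical
  set D : Matrix (Fin ρ) (Fin ρ) F⟦X⟧ := Matrix.of fun a b => B a (c' b) with hD
  obtain ⟨e, U', hU⟩ := C4_fac D.det hdet
  have hX : (PowerSeries.X ^ e : F⟦X⟧) ≠ 0 := pow_ne_zero _ PowerSeries.X_ne_zero
  -- the second family
  have hadj : ∀ a ι, ∃ q, ∑ b, D.adjugate a b * B b ι = D.det * q := by
    intro a ι
    have h1 : ∑ b, D.adjugate a b * B b ι = (D.adjugate.mulVec fun b => B b ι) a := rfl
    rw [h1, ← Matrix.cramer_eq_adjugate_mulVec, Matrix.cramer_apply]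
    have h2 : D.updateCol a (fun b => B b ι) =
        Matrix.of fun x b => B x (Function.update c' a ι b) := by
      ext x b
      by_cases hb : b = a
      · subst hb
        simp [Matrix.updateCol_apply]
      · simp [Matrix.updateCol_apply, hb, hD]
    rw [h2]
    exact hdvd _
  choose q hq using hadj
  have hMc : ∀ a ι, ∑ b, (U' * D.adjugate a b) * B b ι = PowerSeries.X ^ e * q a ι := by
    intro a ι
    have h1 : ∑ b, (U' * D.adjugate a b) * B b ι = U' * ∑ b, D.adjugate a b * B b ι := by
      rw [Finset.mul_sum]
      exact Finset.sum_congr rfl fun b _ => by ring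
    rw [h1, hq, ← mul_assoc, hU]
  refine ⟨e, fun a => U' * ∑ b, w (c' b) * D.adjugate b a, fun b a => U' * D.adjugate a b, q,
    ?_, hMc, ?_⟩
  · have hlam : ∀ a, h * (U' * ∑ b, w (c' b) * D.adjugate b a) = PowerSeries.X ^ e * y a := by
      intro a
      have h1 : h * ∑ b, w (c' b) * D.adjugate b a = D.det * y a := by
        calc h * ∑ b, w (c' b) * D.adjugate b a
            = ∑ b, (h * w (c' b)) * D.adjugate b a := by
              rw [Finset.mul_sum]
              exact Finset.sum_congr rfl fun b _ => by ring
          _ = ∑ b, (∑ a', y a' * D a' b) * D.adjugate b a := by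
              refine Finset.sum_congr rfl fun b _ => ?_
              rw [hw]
              rfl
          _ = ∑ b, ∑ a', y a' * (D a' b * D.adjugate b a) := by
              refine Finset.sum_congr rfl fun b _ => ?_
              rw [Finset.sum_mul]
              exact Finset.sum_congr rfl fun a' _ => by ring
          _ = ∑ a', ∑ b, y a' * (D a' b * D.adjugate b a) := Finset.sum_comm
          _ = ∑ a', y a' * (D * D.adjugate) a' a := by
              refine Finset.sum_congr rfl fun a' _ => ?_
              rw [Matrix.mul_apply, Finset.mul_sum]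
          _ = ∑ a', y a' * (D.det * if a' = a then 1 else 0) := by
              refine Finset.sum_congr rfl fun a' _ => ?_
              rw [Matrix.mul_adjugate, Matrix.smul_apply, Matrix.one_apply, smul_eq_mul]
          _ = D.det * y a := by
              rw [Finset.sum_eq_single a]
              · rw [if_pos rfl]
                ring
              · intro b _ hb
                rw [if_neg hb]
                ring
              · intro ha
                exact absurd (Finset.mem_univ a) ha
      calc h * (U' * ∑ b, w (c' b) * D.adjugate b a)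
          = U' * (h * ∑ b, w (c' b) * D.adjugate b a) := by ring
        _ = (U' * D.det) * y a := by rw [h1]; ring
        _ = _ := by rw [hU]
    intro ι
    refine mul_left_cancel₀ hh ?_
    calc h * (PowerSeries.X ^ e * w ι) = PowerSeries.X ^ e * (h * w ι) := by ring
      _ = PowerSeries.X ^ e * ∑ a, y a * B a ι := by rw [hw]
      _ = ∑ a, (PowerSeries.X ^ e * y a) * B a ι := by
          rw [Finset.mul_sum]
          exact Finset.sum_congr rfl fun b _ => by ring
      _ = ∑ a, (h * (U' * ∑ b, w (c' b) * D.adjugate b a)) * B a ι := by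
          refine Finset.sum_congr rfl fun a _ => ?_
          rw [hlam]
      _ = h * ∑ a, (U' * ∑ b, w (c' b) * D.adjugate b a) * B a ι := by
          rw [Finset.mul_sum]
          exact Finset.sum_congr rfl fun b _ => by ring
  · intro a b
    refine mul_left_cancel₀ hX ?_
    rw [← hMc]
    calc ∑ b', (U' * D.adjugate a b') * B b' (c' b)
        = U' * (D.adjugate * D) a b := by
          rw [Matrix.mul_apply, Finset.mul_sum]
          refine Finset.sum_congr rfl fun b' _ => ?_
          rw [mul_assoc]
          rfl
      _ = (U' * D.det) * (if a = b then 1 else 0) := by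
          rw [Matrix.adjugate_mul, Matrix.smul_apply, Matrix.one_apply, smul_eq_mul]
          ring
      _ = _ := by rw [hU]

end Pool.Agent.Work.MP_499dc6_lc.FC
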