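import Pool.Agent.Work.MP_499dc6_lc.FC.Stmts

/-!
THEOREM FC, item C5.
-/

open MvPolynomial
open scoped PowerSeries

namespace Pool.Agent.Work.MP_499dc6_lc.FC

open Pool.Agent.Work.MP_499dc6_lc.SN

theorem fc_C5 : StC5 := by
  intro hC1 hC2 hC3 hC4 F I _ _ r J w h y hh hy
  classical
  obtain ⟨L, _, _, _, hinj⟩ : ∃ (L : Type) (_ : Field L) (_ : Algebra F⟦X⟧ L)
      (_ : IsFractionRing F⟦X⟧ L), Function.Injective (algebraMap F⟦X⟧ L) :=
    ⟨FractionRing F⟦X⟧, inferInstance, inferInstance, inferInstance,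
      IsFractionRing.injective F⟦X⟧ (FractionRing F⟦X⟧)⟩
  obtain ⟨ρ, i', hρ, hli, hspan⟩ := hC1 L I r (fun i ι => algebraMap F⟦X⟧ L (J i ι))
  have hq : ∀ i, ∃ q : Fin ρ → L, ∑ a, q a • (fun ι => algebraMap F⟦X⟧ L (J (i' a) ι)) =
      fun ι => algebraMap F⟦X⟧ L (J i ι) := fun i =>
    (Submodule.mem_span_range_iff_exists_fun L).1 (hspan i)
  choose q hq using hq
  obtain ⟨b, hb⟩ := IsLocalization.exist_integer_multiples_of_finite (nonZeroDivisors F⟦X⟧)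
    (fun x : Fin r × Fin ρ => q x.1 x.2)
  have hb0 : (b : F⟦X⟧) ≠ 0 := nonZeroDivisors.ne_zero b.2
  have hq' : ∀ i a, ∃ x : F⟦X⟧, algebraMap F⟦X⟧ L x = algebraMap F⟦X⟧ L b * q i a := by
    intro i a
    obtain ⟨x, hx⟩ := hb (i, a)
    refine ⟨x, ?_⟩
    rw [hx, Algebra.smul_def]
  choose q' hq' using hq'
  have hJ : ∀ i ι, (b : F⟦X⟧) * J i ι = ∑ a, q' i a * J (i' a) ι := by
    intro i ι
    apply hinj
    rw [map_mul, map_sum]
    have h1 := congrFun (hq i) ι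
    simp only [Finset.sum_apply, Pi.smul_apply, smul_eq_mul] at h1
    rw [← h1, Finset.mul_sum]
    refine Finset.sum_congr rfl fun a _ => ?_
    rw [map_mul, hq']
    ring
  obtain ⟨c0, hc0⟩ := hC2 L I ρ _ hli
  have hc1 : (Matrix.of fun a b => J (i' a) (c0 b)).det ≠ 0 := by
    intro h0
    apply hc0
    have h1 := RingHom.map_det (algebraMap F⟦X⟧ L) (Matrix.of fun a b => J (i' a) (c0 b))
    rw [h0, map_zero] at h1
    rw [h1]
    rfl
  obtain ⟨c', hc', hdvd⟩ := hC3 F I ρ (fun a => J (i' a)) ⟨c0, hc1⟩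
  obtain ⟨e, lam, M, c, h1, h2, h3⟩ := hC4 F I ρ (fun a => J (i' a)) c' hc' hdvd w
    ((b : F⟦X⟧) * h) (fun a => ∑ i, y i * q' i a) (mul_ne_zero hb0 hh) (fun ι => by
      rw [mul_assoc, hy, Finset.mul_sum]
      have h4 : ∀ i, (b : F⟦X⟧) * (y i * J i ι) = ∑ a, y i * q' i a * J (i' a) ι := by
        intro i
        have : (b : F⟦X⟧) * (y i * J i ι) = y i * ((b : F⟦X⟧) * J i ι) := by ring
        rw [this, hJ, Finset.mul_sum]
        exact Finset.sum_congr rfl fun a _ => by ring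
      rw [Finset.sum_congr rfl fun i _ => h4 i, Finset.sum_comm]
      exact Finset.sum_congr rfl fun a _ => by rw [Finset.sum_mul])
  exact ⟨ρ, i', c', e, lam, M, c, hρ, h1, h2, h3⟩

end Pool.Agent.Work.MP_499dc6_lc.FC
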