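import Mathlib
import Pool.Agent.Work.MP_499dc6_lc.FC.Stmts

/-!
Item D1: the extended circuit has Strahler number at most `t`.
-/

namespace Pool.Agent.Work.MP_499dc6_lc.FC

open MvPolynomial
open scoped PowerSeries
open Pool.Agent.Work.MP_499dc6_lc.SN

/-- the map of the variables of the old gates -/
theorem D1_inj (V : Type) (S ρ : ℕ) : Function.Injective
    (Sum.map (Sum.inl : V → V ⊕ Fin ρ) (Fin.castSucc : Fin S → Fin (S + 1))) :=
  Function.Injective.sumMap Sum.inl_injective (Fin.castSucc_injective S)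

theorem D1_val1 {V : Type} {S ρ : ℕ} (μ : V ⊕ Fin S →₀ ℕ) (i : Fin S) :
    μ.mapDomain (Sum.map (Sum.inl : V → V ⊕ Fin ρ) (Fin.castSucc : Fin S → Fin (S + 1)))
      (Sum.inr i.castSucc) = μ (Sum.inr i) :=
  Finsupp.mapDomain_apply (D1_inj V S ρ) μ (Sum.inr i)

theorem D1_val2 {V : Type} {S ρ : ℕ} (μ : V ⊕ Fin S →₀ ℕ) :
    μ.mapDomain (Sum.map (Sum.inl : V → V ⊕ Fin ρ) (Fin.castSucc : Fin S → Fin (S + 1)))
      (Sum.inr (Fin.last S)) = 0 := by
  apply Finsupp.mapDomain_of_notMem_range
  rintro ⟨x, hx⟩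
  rcases x with x | i
  · simp at hx
  · simp only [Sum.map_inr, Sum.inr.injEq] at hx
    exact (Fin.castSucc_lt_last i).ne hx

theorem fc_D1 : StD1 := by
  classical
  intro O V _ S t ρ lev Q s ht hLev j
  have hl1 : ∀ i : Fin S, exl t lev i.castSucc = lev i := fun i => by
    simp [exl, Fin.snoc_castSucc]
  have hl2 : exl t lev (Fin.last S) = t := by simp [exl, Fin.snoc_last]
  refine Fin.lastCases ?_ (fun j => ?_) j
  · -- the new gate
    have hQ : exQ Q s (Fin.last S) = ∑ a, X (Sum.inl (Sum.inr a)) *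
        X (Sum.inr (Fin.castSucc (s a))) := by
      simp [exQ, Fin.snoc_last]
    rw [hl2, hQ]
    refine ⟨ht, le_rfl, ?_, ?_⟩
    · refine MvPolynomial.totalDegree_finsetSum_le fun a _ => ?_
      refine (MvPolynomial.totalDegree_mul _ _).trans ?_
      by_cases hO : Nontrivial O
      · rw [totalDegree_X, totalDegree_X]
      · have : Subsingleton O := not_nontrivial_iff_subsingleton.mp hO
        simp [Subsingleton.elim (X (Sum.inl (Sum.inr a)) :
          MvPolynomial ((V ⊕ Fin ρ) ⊕ Fin (S + 1)) O) 0,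
          Subsingleton.elim (X (Sum.inr (Fin.castSucc (s a))) :
          MvPolynomial ((V ⊕ Fin ρ) ⊕ Fin (S + 1)) O) 0]
    · intro μ hμ
      have h1 : ∃ a, μ ∈ (X (Sum.inl (Sum.inr a)) * X (Sum.inr (Fin.castSucc (s a))) :
          MvPolynomial ((V ⊕ Fin ρ) ⊕ Fin (S + 1)) O).support := by
        by_contra hcon
        push Not at hcon
        rw [mem_support_iff, coeff_sum] at hμ
        apply hμ
        exact Finset.sum_eq_zero fun a _ => notMem_support_iff.mp (hcon a)
      obtain ⟨a, ha⟩ := h1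
      have h2 : μ = Finsupp.single (Sum.inl (Sum.inr a)) 1 +
          Finsupp.single (Sum.inr (Fin.castSucc (s a))) 1 := by
        have h3 : (X (Sum.inl (Sum.inr a)) * X (Sum.inr (Fin.castSucc (s a))) :
            MvPolynomial ((V ⊕ Fin ρ) ⊕ Fin (S + 1)) O) =
            monomial (Finsupp.single (Sum.inl (Sum.inr a)) 1 +
              Finsupp.single (Sum.inr (Fin.castSucc (s a))) 1) 1 := by
          rw [X, X, monomial_mul, one_mul]
        rw [h3] at ha
        exact Finset.mem_singleton.mp (support_monomial_subset ha)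
      have h4 : ∀ i, μ (Sum.inr i) = if Fin.castSucc (s a) = i then 1 else 0 := by
        intro i
        rw [h2, Finsupp.add_apply, Finsupp.single_apply, Finsupp.single_apply]
        simp [Sum.inr.injEq]
      refine ⟨fun i hi => ?_, ?_⟩
      · rw [h4] at hi
        by_cases h5 : Fin.castSucc (s a) = i
        · rw [← h5]
          refine ⟨Fin.castSucc_lt_last _, ?_⟩
          rw [hl1]
          exact (hLev (s a)).2.1
        · rw [if_neg h5] at hi
          exact absurd rfl hi
      · refine (Finset.sum_le_sum_of_subset (Finset.filter_subset _ _)).trans ?_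
        simp only [h4]
        rw [Finset.sum_ite_eq]
        simp
  · -- the old gates
    have hQ : exQ Q s j.castSucc = rename (Sum.map Sum.inl Fin.castSucc) (Q j) := by
      simp [exQ, Fin.snoc_castSucc]
    obtain ⟨k1, k2, k3, k4⟩ := hLev j
    rw [hl1, hQ]
    refine ⟨k1, k2, (totalDegree_rename_le _ _).trans k3, ?_⟩
    intro μ' hμ'
    rw [support_rename_of_injective (D1_inj V S ρ), Finset.mem_image] at hμ'
    obtain ⟨μ, hμ, rfl⟩ := hμ'
    obtain ⟨k5, k6⟩ := k4 μ hμ
    refine ⟨fun i => ?_, ?_⟩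
    · refine Fin.lastCases ?_ (fun i => ?_) i
      · intro h
        exact absurd (D1_val2 μ) h
      · intro h
        rw [D1_val1] at h
        obtain ⟨k7, k8⟩ := k5 i h
        rw [hl1]
        exact ⟨Fin.castSucc_lt_castSucc_iff.mpr k7, k8⟩
    · rw [Finset.sum_filter, Fin.sum_univ_castSucc]
      simp only [hl1, D1_val1, D1_val2, ite_self, add_zero]
      rw [Finset.sum_filter] at k6
      exact k6

end Pool.Agent.Work.MP_499dc6_lc.FC
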