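import Mathlib
import Pool.Agent.Work.MP_499dc6_lc.FC.Stmts

/-!
Item D2: the values of the extended circuit.
-/

open MvPolynomial
open scoped PowerSeries

namespace Pool.Agent.Work.MP_499dc6_lc.FC

open Pool.Agent.Work.MP_499dc6_lc.SN

theorem fc_D2 : StD2 := by
  intro O V _ S ρ Q f s hf j
  refine Fin.lastCases ?_ (fun j => ?_) j
  · unfold exQ
    rw [Fin.snoc_last]
    unfold ev
    rw [map_sum]
    have h1 : exf f s (Fin.last S) = ∑ a, X (Sum.inr a) * rename Sum.inl (f (s a)) := by
      unfold exf
      rw [Fin.snoc_last]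
    rw [h1]
    refine Finset.sum_congr rfl fun a _ => ?_
    rw [map_mul, aeval_X, aeval_X]
    show X (Sum.inr a) * rename Sum.inl (f (s a)) = X (Sum.inr a) * exf f s (Fin.castSucc (s a))
    have h2 : exf f s (Fin.castSucc (s a)) = rename Sum.inl (f (s a)) := by
      unfold exf
      rw [Fin.snoc_castSucc]
    rw [h2]
  · have h2 : ∀ i : Fin S, exf f s (Fin.castSucc i) = rename Sum.inl (f i) := by
      intro i
      unfold exf
      rw [Fin.snoc_castSucc]
    rw [h2]
    have h3 : exQ Q s (Fin.castSucc j) = rename (Sum.map Sum.inl Fin.castSucc) (Q j) := by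
      unfold exQ
      rw [Fin.snoc_castSucc]
    rw [h3, hf j]
    unfold ev
    rw [aeval_rename, comp_aeval_apply]
    congr 1
    apply congrArg
    funext z
    rcases z with v | i
    · show rename Sum.inl (X v) = X (Sum.inl v)
      rw [rename_X]
    · exact (h2 i).symm

end Pool.Agent.Work.MP_499dc6_lc.FC
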