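import Mathlib
import Pool.Agent.Work.MP_499dc6_lc.FC.Stmts

/-!
THEOREM FC, item D3: the derivatives of the last gate of the extended circuit.
-/

open MvPolynomial
open scoped PowerSeries

namespace Pool.Agent.Work.MP_499dc6_lc.FC

open Pool.Agent.Work.MP_499dc6_lc.SN

theorem fc_D3 : StD3 := by
  classical
  intro O V _ S ρ f s u
  rw [exf, Fin.snoc_last, map_sum]
  refine Finset.sum_congr rfl fun a _ => ?_
  have h1 : (Sum.inr a : V ⊕ Fin ρ) ≠ Sum.inl u := by simp
  rw [pderiv_mul, pderiv_X_of_ne h1, zero_mul, zero_add, pderiv_rename Sum.inl_injective]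

end Pool.Agent.Work.MP_499dc6_lc.FC
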