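import Mathlib
import Pool.Agent.Work.MP_499dc6_lc.FC.Stmts

/-!
THEOREM FC, item D4: the extended circuit is acyclic.
-/

open MvPolynomial
open scoped PowerSeries

namespace Pool.Agent.Work.MP_499dc6_lc.FC

open Pool.Agent.Work.MP_499dc6_lc.SN

theorem D4_inj {V : Type} {S ρ : ℕ} : Function.Injective
    (Sum.map (Sum.inl : V → V ⊕ Fin ρ) (Fin.castSucc : Fin S → Fin (S + 1))) :=
  Sum.map_injective.2 ⟨Sum.inl_injective, Fin.castSucc_injective S⟩

theorem fc_D4 : StD4 := by
  classical
  intro O V _ S ρ Q s hQ j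
  rcases subsingleton_or_nontrivial O with hO | hO
  · intro μ hμ
    exact absurd (Subsingleton.elim _ _) (mem_support_iff.1 hμ)
  refine Fin.lastCases ?_ (fun j => ?_) j
  · intro μ hμ i hi
    rw [exQ, Fin.snoc_last] at hμ
    have h1 : (Sum.inr i : (V ⊕ Fin ρ) ⊕ Fin (S + 1)) ∈
        (∑ a, X (Sum.inl (Sum.inr a)) * X (Sum.inr (Fin.castSucc (s a))) :
          MvPolynomial ((V ⊕ Fin ρ) ⊕ Fin (S + 1)) O).vars :=
      (mem_vars _).2 ⟨μ, hμ, Finsupp.mem_support_iff.2 hi⟩
    have h2 := (vars_sum_subset _ _) h1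
    rw [Finset.mem_biUnion] at h2
    obtain ⟨a, -, ha⟩ := h2
    have h3 := (vars_mul _ _) ha
    rw [vars_X, vars_X, Finset.mem_union, Finset.mem_singleton, Finset.mem_singleton] at h3
    rcases h3 with h3 | h3
    · exact absurd h3 (by simp)
    · have h4 : i = Fin.castSucc (s a) := Sum.inr_injective h3
      rw [h4]
      exact Fin.castSucc_lt_last _
  · intro μ hμ i hi
    rw [exQ, Fin.snoc_castSucc, support_rename_of_injective D4_inj, Finset.mem_image] at hμ
    obtain ⟨ν, hν, rfl⟩ := hμ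
    revert hi
    refine Fin.lastCases (fun hi => ?_) (fun i hi => ?_) i
    · exfalso
      apply hi
      apply Finsupp.mapDomain_notin_range
      rintro ⟨x, hx⟩
      rcases x with x | x
      · exact absurd hx (by simp)
      · have h1 : Fin.castSucc x = Fin.last S := Sum.inr_injective hx
        exact (Fin.castSucc_lt_last x).ne h1
    · have h1 : Finsupp.mapDomain (Sum.map (Sum.inl : V → V ⊕ Fin ρ) Fin.castSucc) ν
          (Sum.map (Sum.inl : V → V ⊕ Fin ρ) (Fin.castSucc : Fin S → Fin (S + 1)) (Sum.inr i)) =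
          ν (Sum.inr i) := Finsupp.mapDomain_apply D4_inj ν (Sum.inr i)
      have h2 : ν (Sum.inr i) ≠ 0 := by
        rw [← h1]
        exact hi
      exact Fin.castSucc_lt_castSucc_iff.2 (hQ j ν hν i h2)

end Pool.Agent.Work.MP_499dc6_lc.FC
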