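import Mathlib
import Pool.Agent.Work.MP_499dc6_lc.FC.Stmts
import Pool.Agent.Work.MP_499dc6_lc.SN.I_LI

/-!
THEOREM FC, item E1 (helper59): leading coefficients.
-/

open MvPolynomial
open scoped PowerSeries

namespace Pool.Agent.Work.MP_499dc6_lc.FC

open Pool.Agent.Work.MP_499dc6_lc.SN

theorem fc_E1 : StE1 := by
  intro k A R' N Pt _ _ _ _ _ _ _ Φ at' b g n hb hΦ hli
  have hG : LinearIndependent k⟦X⟧ (fun p => ∏ i, g i ^ n p i) := by
    apply H13.linearIndependent_of_constantCoeff (k := k)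
    refine LI_congr hli fun p => ?_
    simp only [map_prod, map_pow]
  have hne : ∀ p : Pt, (∏ i, b i ^ n p i) ≠ 0 := fun p =>
    Finset.prod_ne_zero_iff.2 fun i _ => pow_ne_zero _ (hb i)
  have hfin := LI_smul _ hne _ hG
  refine LinearIndependent.of_comp Φ.toLinearMap ?_
  refine LI_congr hfin fun p => ?_
  simp only [Function.comp_apply, AlgHom.toLinearMap_apply, map_prod, map_pow, hΦ, mul_pow,
    Finset.prod_mul_distrib, Algebra.smul_def]

end Pool.Agent.Work.MP_499dc6_lc.FC
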