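import Mathlib
import Pool.Agent.Work.MP_499dc6_lc.FC.Stmts
import Pool.Agent.Work.MP_499dc6_lc.SN.I_LI

/-!
THEOREM FC, E3: the family of leading coefficients is linearly independent.
-/

open MvPolynomial
open scoped PowerSeries

namespace Pool.Agent.Work.MP_499dc6_lc.FC

open Pool.Agent.Work.MP_499dc6_lc.SN

theorem fc_E3 : StE3 := by
  intro hE2 k V Ξ Τ I _ _ _ _ _ _ _ P dp S ρ c J α β hli
  have h1 := H13.base_indep dp α β 0 hli (H13.xT dp) (fun v => by rw [sub_self]; exact dvd_zero _)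
  -- the fraction field
  have hinj : Function.Injective (IsScalarTower.toAlgHom k (H13.TR k Ξ) (F0 k Ξ)) := by
    have := IsFractionRing.injective (H13.TR k Ξ) (F0 k Ξ)
    exact this
  have h2 := h1.map' (IsScalarTower.toAlgHom k (H13.TR k Ξ) (F0 k Ξ)).toLinearMap
    (LinearMap.ker_eq_bot.2 hinj)
  have hpt : (fun v => algebraMap (H13.TR k Ξ) (F0 k Ξ) (H13.xT dp v)) =
      fun v => algebraMap k (F0 k Ξ) (dp.X0 v) + ∑ i, algebraMap k (F0 k Ξ) (dp.X1 v i) * th0 k i := by
    funext v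
    rw [H13.xT_eq, map_add, map_sum]
    simp only [map_mul, ← IsScalarTower.algebraMap_apply, th0]
  have h3 : LinearIndependent k (fun j => (∏ i, th0 k i ^ α j i) *
      ∏ i, (aeval (fun v => algebraMap k (F0 k Ξ) (dp.X0 v) +
        ∑ i, algebraMap k (F0 k Ξ) (dp.X1 v i) * th0 k i) (pderiv (dp.dir i) P)) ^ β j i) := by
    refine LI_congr h2 fun j => ?_
    have h3 : ∀ q : MvPolynomial V k, aeval (fun v => algebraMap (H13.TR k Ξ) (F0 k Ξ)
        (H13.xT dp v)) q = algebraMap (H13.TR k Ξ) (F0 k Ξ) (aeval (H13.xT dp) q) := by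
      intro q
      exact MvPolynomial.aeval_algebraMap_apply (F0 k Ξ) (H13.xT dp) q
    rw [← hpt]
    simp only [Function.comp_apply, AlgHom.toLinearMap_apply, IsScalarTower.coe_toAlgHom', map_mul,
      map_prod, map_pow, h3, th0, Nat.zero_sub, pow_zero, mul_one]
  have h4 := hE2 k (F0 k Ξ) J I ρ _ _ β c h3
  have h5 := LI_base (S + 1) _ h4
  refine LI_congr h5 fun p => ?_
  simp only [map_mul, map_prod, map_pow, map_add, map_sum]

end Pool.Agent.Work.MP_499dc6_lc.FC
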