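import Mathlib
import Pool.Agent.Work.MP_499dc6_lc.FC.Stmts

/-!
THEOREM FC, item E4: the substitution for the extended circuit.
-/

open MvPolynomial
open scoped PowerSeries

namespace Pool.Agent.Work.MP_499dc6_lc.FC

open Pool.Agent.Work.MP_499dc6_lc.SN

/-- The inclusion of the coefficients. -/
noncomputable def E4_io (k F : Type) [Field k] [Field F] [Algebra k F] (ρ S : ℕ) :
    F⟦X⟧ →ₐ[k⟦X⟧] (RR F ρ S)⟦X⟧ :=
  { PowerSeries.map ((C : MvPolynomial (Fin ρ) F →+* RR F ρ S).comp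
      (C : F →+* MvPolynomial (Fin ρ) F)) with
    commutes' := by
      intro a
      show PowerSeries.map ((C : MvPolynomial (Fin ρ) F →+* RR F ρ S).comp
        (C : F →+* MvPolynomial (Fin ρ) F)) (algebraMap k⟦X⟧ F⟦X⟧ a) = _
      rw [PowerSeries.algebraMap_apply'', PowerSeries.algebraMap_apply'']
      ext n
      rw [PowerSeries.coeff_map, PowerSeries.coeff_map, PowerSeries.coeff_map]
      rfl }

theorem E4_io_C (k F : Type) [Field k] [Field F] [Algebra k F] (ρ S : ℕ) (a : F) :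
    E4_io k F ρ S (PowerSeries.C a) = PowerSeries.C (C (C a)) := by
  show PowerSeries.map _ (PowerSeries.C a) = _
  rw [PowerSeries.map_C]
  rfl

theorem E4_io_X (k F : Type) [Field k] [Field F] [Algebra k F] (ρ S : ℕ) :
    E4_io k F ρ S PowerSeries.X = PowerSeries.X := by
  show PowerSeries.map _ PowerSeries.X = _
  rw [PowerSeries.map_X]

theorem E4_io_cc (k F : Type) [Field k] [Field F] [Algebra k F] (ρ S : ℕ) (f : F⟦X⟧) :
    PowerSeries.constantCoeff (E4_io k F ρ S f) = C (C (PowerSeries.constantCoeff f)) := by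
  show PowerSeries.constantCoeff (PowerSeries.map _ f) = _
  rw [← PowerSeries.coeff_zero_eq_constantCoeff_apply, PowerSeries.coeff_map,
    PowerSeries.coeff_zero_eq_constantCoeff_apply]
  rfl

theorem E4_al (k F : Type) [Field k] [Field F] [Algebra k F] (ρ S n : ℕ) :
    algebraMap k⟦X⟧ (RR F ρ S)⟦X⟧ (PowerSeries.X ^ n) = PowerSeries.X ^ n := by
  rw [map_pow, PowerSeries.algebraMap_apply'', PowerSeries.map_X]

/-- item E4 -/
theorem fc_E4 : StE4 := by
  intro hPH hD2 hD3 hD4 k V Ξ I F _ _ _ _ S ρ Q hQ f hf s x0 X1 θ dir e lam M w c hw hc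
  set ι := E4_io k F ρ S with hι
  let th : Ξ ⊕ Fin ρ → (RR F ρ S)⟦X⟧ := Sum.elim (fun i => PowerSeries.C (C (C (θ i))))
    (fun a => ι (lam a) + ∑ b, ι (M a b) * PowerSeries.C (C (X b)))
  obtain ⟨Φ, hΦ1, hΦ2, hΦ3, hΦ4⟩ := hPH k⟦X⟧ (V ⊕ Fin ρ) (Ξ ⊕ Fin ρ) (RR F ρ S)⟦X⟧ (S + 1)
    (exQ Q s) (hD4 k⟦X⟧ V S ρ Q s hQ) (exf f s) (hD2 k⟦X⟧ V S ρ Q f s hf) (Fin.last S)
    (ex0 x0) (ex1 fun v i => PowerSeries.C (X1 v i)) th
    (algebraMap k⟦X⟧ (RR F ρ S)⟦X⟧ (PowerSeries.X ^ (e + 1)))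
    (fun j => PowerSeries.C (X (Sum.inl j))) (fun j => PowerSeries.C (X (Sum.inr j)))
  refine ⟨Φ, fun i => ?_, hΦ2, hΦ3, fun i => ?_⟩
  · rw [hΦ1]
    rfl
  · obtain ⟨q, hq⟩ := hΦ4 (Sum.inl (dir i))
    -- the point
    have hp1 : ∀ v : V, (algebraMap k⟦X⟧ (RR F ρ S)⟦X⟧ (ex0 (ρ := ρ) x0 (Sum.inl v)) +
        ∑ j, algebraMap k⟦X⟧ (RR F ρ S)⟦X⟧
          (ex1 (ρ := ρ) (fun v i => (PowerSeries.C (X1 v i) : k⟦X⟧)) (Sum.inl v) j) * th j) =
        ι (xh x0 X1 θ v) := by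
      intro v
      rw [Fintype.sum_sum_type]
      have h2 : ∑ b : Fin ρ, algebraMap k⟦X⟧ (RR F ρ S)⟦X⟧
          (ex1 (ρ := ρ) (fun v i => (PowerSeries.C (X1 v i) : k⟦X⟧)) (Sum.inl v) (Sum.inr b)) *
            th (Sum.inr b) = 0 := by
        refine Finset.sum_eq_zero fun b _ => ?_
        simp [ex1]
      rw [h2, add_zero, xh, map_add, map_sum, AlgHom.commutes]
      congr 1
      refine Finset.sum_congr rfl fun j _ => ?_
      have h3 : ex1 (ρ := ρ) (fun v i => (PowerSeries.C (X1 v i) : k⟦X⟧)) (Sum.inl v)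
          (Sum.inl j) = PowerSeries.C (X1 v j) := rfl
      have h4 : th (Sum.inl j) = PowerSeries.C (C (C (θ j))) := rfl
      rw [h3, h4, hι, E4_io_C, C_mul, C_mul, map_mul, PowerSeries.algebraMap_apply'',
        PowerSeries.map_C]
      rfl
    have hp2 : ∀ a : Fin ρ, (algebraMap k⟦X⟧ (RR F ρ S)⟦X⟧ (ex0 (ρ := ρ) x0 (Sum.inr a)) +
        ∑ j, algebraMap k⟦X⟧ (RR F ρ S)⟦X⟧
          (ex1 (ρ := ρ) (fun v i => (PowerSeries.C (X1 v i) : k⟦X⟧)) (Sum.inr a) j) * th j) =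
        ι (lam a) + ∑ b, ι (M a b) * PowerSeries.C (C (X b)) := by
      intro a
      rw [Fintype.sum_sum_type]
      have h1 : ∑ j : Ξ, algebraMap k⟦X⟧ (RR F ρ S)⟦X⟧
          (ex1 (ρ := ρ) (fun v i => (PowerSeries.C (X1 v i) : k⟦X⟧)) (Sum.inr a) (Sum.inl j)) *
            th (Sum.inl j) = 0 := by
        refine Finset.sum_eq_zero fun b _ => ?_
        simp [ex1]
      have h2 : ∑ b : Fin ρ, algebraMap k⟦X⟧ (RR F ρ S)⟦X⟧
          (ex1 (ρ := ρ) (fun v i => (PowerSeries.C (X1 v i) : k⟦X⟧)) (Sum.inr a) (Sum.inr b)) *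
            th (Sum.inr b) = th (Sum.inr a) := by
        rw [Finset.sum_eq_single a]
        · simp [ex1]
        · intro b _ hb
          simp [ex1, Ne.symm hb]
        · simp
      have h3 : ex0 (ρ := ρ) x0 (Sum.inr a) = 0 := rfl
      rw [h1, h2, h3, map_zero, zero_add, zero_add]
      rfl
    -- the derivative at the point
    have hder : aeval (fun v => algebraMap k⟦X⟧ (RR F ρ S)⟦X⟧ (ex0 (ρ := ρ) x0 v) +
        ∑ j, algebraMap k⟦X⟧ (RR F ρ S)⟦X⟧
          (ex1 (ρ := ρ) (fun v i => (PowerSeries.C (X1 v i) : k⟦X⟧)) v j) * th j)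
          (pderiv (Sum.inl (dir i)) (exf f s (Fin.last S))) =
        PowerSeries.X ^ e * (ι (w i) + ∑ b, ι (c b i) * PowerSeries.C (C (X b))) := by
      rw [hD3, map_sum]
      have hterm : ∀ a : Fin ρ, aeval (fun v => algebraMap k⟦X⟧ (RR F ρ S)⟦X⟧ (ex0 (ρ := ρ) x0 v) +
          ∑ j, algebraMap k⟦X⟧ (RR F ρ S)⟦X⟧
            (ex1 (ρ := ρ) (fun v i => (PowerSeries.C (X1 v i) : k⟦X⟧)) v j) * th j)
          (X (Sum.inr a) * rename Sum.inl (pderiv (dir i) (f (s a)))) =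
          (ι (lam a) + ∑ b, ι (M a b) * PowerSeries.C (C (X b))) *
            ι (aeval (xh x0 X1 θ) (pderiv (dir i) (f (s a)))) := by
        intro a
        rw [map_mul, aeval_X, hp2, aeval_rename, comp_aeval_apply]
        congr 2
        congr 1
        funext v
        exact hp1 v
      rw [Finset.sum_congr rfl fun a _ => hterm a]
      simp only [add_mul, Finset.sum_add_distrib, mul_add]
      congr 1
      · rw [← E4_io_X k F ρ S, ← hι, ← map_pow, ← map_mul, hw, map_sum]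
        exact Finset.sum_congr rfl fun a _ => (map_mul ι _ _).symm
      · have h5 : ∀ b : Fin ρ, ∑ a : Fin ρ, ι (M a b) *
            ι (aeval (xh x0 X1 θ) (pderiv (dir i) (f (s a)))) =
            PowerSeries.X ^ e * ι (c b i) := by
          intro b
          rw [← E4_io_X k F ρ S, ← hι, ← map_pow, ← map_mul, ← hc b i, map_sum]
          exact Finset.sum_congr rfl fun a _ => (map_mul ι _ _).symm
        simp only [Finset.sum_mul, Finset.mul_sum]
        rw [Finset.sum_comm]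
        refine Finset.sum_congr rfl fun b _ => ?_
        rw [← mul_assoc, ← h5 b, Finset.sum_mul]
        exact Finset.sum_congr rfl fun a _ => by ring
    rw [hder] at hq
    refine ⟨ι (w i) + ∑ b, ι (c b i) * PowerSeries.C (C (X b)) + PowerSeries.X * q, ?_, ?_⟩
    · rw [E4_al]
      rw [E4_al] at hq
      linear_combination hq
    · rw [map_add, map_add, map_mul, PowerSeries.constantCoeff_X, zero_mul, add_zero, map_sum,
        E4_io_cc, C_add, map_sum]
      congr 1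
      refine Finset.sum_congr rfl fun b _ => ?_
      rw [map_mul, E4_io_cc, PowerSeries.constantCoeff_C, C_mul]

end Pool.Agent.Work.MP_499dc6_lc.FC
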