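import Mathlib
import Pool.Agent.Work.MP_499dc6_lc.FC.Stmts

/-!
Item E5: the values of the polynomials pp.
-/

open MvPolynomial
open scoped PowerSeries

namespace Pool.Agent.Work.MP_499dc6_lc.FC

open Pool.Agent.Work.MP_499dc6_lc.SN

theorem E5_alg (k F : Type) [Field k] [Field F] [Algebra k F] (S ρ : ℕ) (a : k) :
    algebraMap k⟦X⟧ (RR F ρ S)⟦X⟧ (PowerSeries.C a) =
      PowerSeries.C (C (C (algebraMap k F a))) := by
  have h : algebraMap k⟦X⟧ (RR F ρ S)⟦X⟧ (PowerSeries.C a) =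
      PowerSeries.map (algebraMap k (RR F ρ S)) (PowerSeries.C a) := rfl
  rw [h, PowerSeries.map_C]
  rfl

theorem fc_E5 : StE5 := by
  intro k V Ξ F _ _ _ _ S ρ X0 X1 θ Φ hΦ p
  unfold pp
  have hpt : ∀ v : V, Φ (ptx (ex0 fun v => PowerSeries.C (X0 v))
      (ex1 fun v i => PowerSeries.C (X1 v i)) (Sum.inl v)) =
      PowerSeries.C (C (C (algebraMap k F (X0 v) + ∑ i, algebraMap k F (X1 v i) * θ i))) := by
    intro v
    unfold ptx ex0 ex1
    rw [map_add, map_sum, Fintype.sum_sum_type]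
    have h1 : ∀ r : k⟦X⟧, Φ (C r) = algebraMap k⟦X⟧ (RR F ρ S)⟦X⟧ r := fun r => Φ.commutes r
    simp only [Sum.elim_inl, Sum.elim_inr, map_mul, h1, map_zero, zero_mul, Finset.sum_const_zero,
      add_zero, hΦ, E5_alg]
    simp only [map_add, map_sum, map_mul]
  induction p using MvPolynomial.induction_on with
  | C a =>
    rw [map_C, aeval_C, aeval_C]
    have h1 : Φ (algebraMap k⟦X⟧ (MvPolynomial (Var (Ξ ⊕ Fin ρ) (S + 1)) k⟦X⟧)
        (PowerSeries.C a)) = algebraMap k⟦X⟧ (RR F ρ S)⟦X⟧ (PowerSeries.C a) := Φ.commutes _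
    rw [h1, E5_alg]
  | add p q hp hq =>
    simp only [map_add] at hp hq ⊢
    rw [hp, hq]
  | mul_X p v hp =>
    simp only [map_mul, map_X, aeval_X] at hp ⊢
    rw [hp, hpt]

end Pool.Agent.Work.MP_499dc6_lc.FC
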