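import Pool.Agent.Work.MP_499dc6_lc.FC.Stmts
import Pool.Agent.Work.MP_499dc6_lc.SN.I_LI

/-!
THEOREM FC, item E6: the family is linearly independent over the power series.
-/

open MvPolynomial
open scoped PowerSeries

namespace Pool.Agent.Work.MP_499dc6_lc.FC

open Pool.Agent.Work.MP_499dc6_lc.SN

theorem E6_core (hE1 : StE1) {k A R' Ξ I Pt : Type} {ρ n : ℕ} [Field k] [CommRing A]
    [Algebra k⟦X⟧ A] [CommRing R'] [IsDomain R'] [Algebra k R'] [Fintype Ξ] [Fintype I]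
    (Φ : A →ₐ[k⟦X⟧] R'⟦X⟧) (xi : Ξ → A) (G : I → A) (T : Fin ρ → A) (H H' : Fin n → A)
    (e e' : ℕ) (xi' : Ξ → R') (g : I → R'⟦X⟧) (t : Fin ρ → R'⟦X⟧) (W U : Fin n → R')
    (h1 : ∀ i, Φ (xi i) = PowerSeries.C (xi' i))
    (h2 : ∀ i, Φ (G i) = algebraMap k⟦X⟧ R'⟦X⟧ (PowerSeries.X ^ e) * g i)
    (h3 : ∀ a, Φ (T a) = algebraMap k⟦X⟧ R'⟦X⟧ (PowerSeries.X ^ e) * t a)
    (h4 : ∀ j, Φ (H j) = algebraMap k⟦X⟧ R'⟦X⟧ (PowerSeries.X ^ e') * PowerSeries.C (W j))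
    (h5 : ∀ j, Φ (H' j) = algebraMap k⟦X⟧ R'⟦X⟧ (PowerSeries.X ^ e') * PowerSeries.C (U j))
    (α : Pt → Ξ →₀ ℕ) (β : Pt → I →₀ ℕ) (δ : Pt → Fin ρ →₀ ℕ) (γ γ' : Pt → Fin n →₀ ℕ)
    (hlead : LinearIndependent k (fun p => ((∏ i, xi' i ^ α p i) *
      (∏ i, PowerSeries.constantCoeff (g i) ^ β p i) *
      ∏ a, PowerSeries.constantCoeff (t a) ^ δ p a) *
      ((∏ j, W j ^ γ p j) * ∏ j, U j ^ γ' p j))) :
    LinearIndependent k⟦X⟧ (fun p => ((∏ i, xi i ^ α p i) * (∏ i, G i ^ β p i) *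
      ∏ a, T a ^ δ p a) * ((∏ j, H j ^ γ p j) * ∏ j, H' j ^ γ' p j)) := by
  have hE := hE1 k A R' (Ξ ⊕ (I ⊕ (Fin ρ ⊕ (Fin n ⊕ Fin n)))) Pt Φ
    (Sum.elim xi (Sum.elim G (Sum.elim T (Sum.elim H H'))))
    (Sum.elim (fun _ => 1) (Sum.elim (fun _ => PowerSeries.X ^ e) (Sum.elim
      (fun _ => PowerSeries.X ^ e) (Sum.elim (fun _ => PowerSeries.X ^ e')
      (fun _ => PowerSeries.X ^ e')))))
    (Sum.elim (fun i => PowerSeries.C (xi' i)) (Sum.elim g (Sum.elim t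
      (Sum.elim (fun j => PowerSeries.C (W j)) (fun j => PowerSeries.C (U j))))))
    (fun p => Sum.elim (α p) (Sum.elim (β p) (Sum.elim (δ p) (Sum.elim (γ p) (γ' p)))))
    ?_ ?_ ?_
  · refine LI_congr hE fun p => ?_
    simp only [Fintype.prod_sum_type, Sum.elim_inl, Sum.elim_inr]
    ring
  · rintro (i | i | i | i | i)
    · exact one_ne_zero
    · exact pow_ne_zero _ PowerSeries.X_ne_zero
    · exact pow_ne_zero _ PowerSeries.X_ne_zero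
    · exact pow_ne_zero _ PowerSeries.X_ne_zero
    · exact pow_ne_zero _ PowerSeries.X_ne_zero
  · rintro (i | i | i | i | i)
    · simp only [Sum.elim_inl, map_one, one_mul]
      exact h1 i
    · exact h2 i
    · exact h3 i
    · exact h4 i
    · exact h5 i
  · refine LI_congr hlead fun p => ?_
    simp only [Fintype.prod_sum_type, Sum.elim_inl, Sum.elim_inr, PowerSeries.constantCoeff_C]
    ring

theorem E6_const {F : Type} [Field F] {ρ : ℕ} (d : F) (c : Fin ρ → F) (a : Fin ρ)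
    (h : ∀ b, c b = if b = a then 1 else 0) :
    ((C d + ∑ b, C (c b) * X b : MvPolynomial (Fin ρ) F)) - C d = X a := by
  have h7 : ∀ b, (C (c b) * X b : MvPolynomial (Fin ρ) F) = if b = a then X b else 0 := by
    intro b
    rw [h]
    by_cases hba : b = a
    · rw [if_pos hba, if_pos hba, C_1, one_mul]
    · rw [if_neg hba, if_neg hba, C_0, zero_mul]
  rw [add_sub_cancel_left, Finset.sum_congr rfl fun b _ => h7 b,
    Finset.sum_ite_eq' Finset.univ a, if_pos (Finset.mem_univ a)]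

/-- the second half, over an arbitrary field -/
theorem E6_half (hE1 : StE1) {k V Ξ I F : Type} [Field k] [Field F] [Algebra k F] [Fintype Ξ]
    [Fintype I] {S ρ : ℕ} (Q : Fin S → MvPolynomial (V ⊕ Fin S) k⟦X⟧) (s : Fin ρ → Fin S)
    (x0 : V → k⟦X⟧) (X0 : V → k) (X1 : V → Ξ → k) (θ : Ξ → F) (dir : I → V) (e : ℕ)
    (w : I → F⟦X⟧) (c : Fin ρ → I → F⟦X⟧) (c' : Fin ρ → I) (P' : V → MvPolynomial V k) (d : V → F)
    (Φ : MvPolynomial (Var (Ξ ⊕ Fin ρ) (S + 1)) k⟦X⟧ →ₐ[k⟦X⟧] (RR F ρ S)⟦X⟧)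
    (hΦ1 : ∀ i, Φ (X (Sum.inl (Sum.inl i))) = PowerSeries.C (C (C (θ i))))
    (hΦ2 : ∀ j, Φ (Hp (ex0 x0) (ex1 fun v i => PowerSeries.C (X1 v i)) (exQ Q s) j) =
      algebraMap k⟦X⟧ (RR F ρ S)⟦X⟧ (PowerSeries.X ^ (e + 1)) * PowerSeries.C (X (Sum.inl j)))
    (hΦ3 : ∀ j, Φ (Ha (ex0 x0) (ex1 fun v i => PowerSeries.C (X1 v i)) (exQ Q s) (Fin.last S) j) =
      algebraMap k⟦X⟧ (RR F ρ S)⟦X⟧ (PowerSeries.X ^ (e + 1)) * PowerSeries.C (X (Sum.inr j)))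
    (g : I → (RR F ρ S)⟦X⟧)
    (hg1 : ∀ i, Φ (Gp (ex0 x0) (ex1 fun v i => PowerSeries.C (X1 v i)) (exQ Q s)
      (Sum.inl (dir i))) = algebraMap k⟦X⟧ (RR F ρ S)⟦X⟧ (PowerSeries.X ^ e) * g i)
    (hg2 : ∀ i, PowerSeries.constantCoeff (g i) = C (C (PowerSeries.constantCoeff (w i)) +
        ∑ a, C (PowerSeries.constantCoeff (c a i)) * X a))
    (hc : ∀ a b, c a (c' b) = if a = b then 1 else 0)
    (hpp : ∀ v, Φ (pp (fun v => PowerSeries.C (X0 v)) (fun v i => PowerSeries.C (X1 v i))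
      (MvPolynomial.map PowerSeries.C (P' v))) = PowerSeries.C (C (C (d v))))
    (hw : ∀ i, PowerSeries.constantCoeff (w i) = d (dir i))
    (J : Type) (α : J → Ξ →₀ ℕ) (β : J → I →₀ ℕ)
    (hlead : LinearIndependent k
      (fun p : (J × (Fin ρ →₀ ℕ)) × ((Fin (S + 1) →₀ ℕ) × (Fin (S + 1) →₀ ℕ)) =>
      (((∏ i, C (C (θ i)) ^ α p.1.1 i) *
      (∏ i, C (C (d (dir i)) +
        ∑ a, C (PowerSeries.constantCoeff (c a i)) * X a) ^ β p.1.1 i) *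
      ∏ a, C (X a) ^ p.1.2 a) *
      ((∏ j, X (Sum.inl j) ^ p.2.1 j) * ∏ j, X (Sum.inr j) ^ p.2.2 j) : RR F ρ S))) :
    LinearIndependent k⟦X⟧
      (fun p : (J × (Fin ρ →₀ ℕ)) × ((Fin (S + 1) →₀ ℕ) × (Fin (S + 1) →₀ ℕ)) =>
        famF x0 (fun v => PowerSeries.C (X0 v)) (fun v i => PowerSeries.C (X1 v i)) Q s
          (PowerSeries.X ^ e) (fun a => dir (c' a))
          (fun a => MvPolynomial.map PowerSeries.C (P' (dir (c' a))))
          dir (α p.1.1) (β p.1.1) p.1.2 p.2.1 p.2.2) := by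
  have h6 : ∀ a : Fin ρ, PowerSeries.constantCoeff (g (c' a) -
      PowerSeries.C (C (C (d (dir (c' a)))))) = C (X a) := by
    intro a
    rw [map_sub, hg2, PowerSeries.constantCoeff_C, hw, ← map_sub]
    congr 1
    refine E6_const _ (fun b => PowerSeries.constantCoeff (c b (c' a))) a fun b => ?_
    rw [hc]
    split_ifs
    · exact map_one _
    · exact map_zero _
  have h8 : ∀ a, Φ (tt x0 (fun v => PowerSeries.C (X0 v)) (fun v i => PowerSeries.C (X1 v i)) Q s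
      (PowerSeries.X ^ e) (fun a => dir (c' a))
      (fun a => MvPolynomial.map PowerSeries.C (P' (dir (c' a)))) a) =
      algebraMap k⟦X⟧ (RR F ρ S)⟦X⟧ (PowerSeries.X ^ e) *
        (g (c' a) - PowerSeries.C (C (C (d (dir (c' a)))))) := by
    intro a
    have h5 : (C (PowerSeries.X ^ e) : MvPolynomial (Var (Ξ ⊕ Fin ρ) (S + 1)) k⟦X⟧) =
        algebraMap k⟦X⟧ _ (PowerSeries.X ^ e) := rfl
    rw [tt, map_sub, map_mul, hg1, hpp, h5, AlgHom.commutes, mul_sub]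
  have hlead2 : LinearIndependent k
      (fun p : (J × (Fin ρ →₀ ℕ)) × ((Fin (S + 1) →₀ ℕ) × (Fin (S + 1) →₀ ℕ)) =>
      (((∏ i, C (C (θ i)) ^ α p.1.1 i) *
      (∏ i, PowerSeries.constantCoeff (g i) ^ β p.1.1 i) *
      ∏ a, PowerSeries.constantCoeff (g (c' a) -
      PowerSeries.C (C (C (d (dir (c' a)))))) ^ p.1.2 a) *
      ((∏ j, X (Sum.inl j) ^ p.2.1 j) * ∏ j, X (Sum.inr j) ^ p.2.2 j) : RR F ρ S)) := by
    refine LI_congr hlead fun p => ?_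
    have e1 : ∏ a, PowerSeries.constantCoeff (g (c' a) -
        PowerSeries.C (C (C (d (dir (c' a)))))) ^ p.1.2 a = ∏ a, C (X a) ^ p.1.2 a :=
      Finset.prod_congr rfl fun a _ => by rw [h6 a]
    have e2 : ∏ i, PowerSeries.constantCoeff (g i) ^ β p.1.1 i = ∏ i, C (C (d (dir i)) +
        ∑ a, C (PowerSeries.constantCoeff (c a i)) * X a) ^ β p.1.1 i :=
      Finset.prod_congr rfl fun i _ => by rw [hg2 i, hw i]
    rw [e1, e2]
  have hE := E6_core (R' := RR F ρ S) hE1 Φ (fun i => X (Sum.inl (Sum.inl i)))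
    (fun i => Gp (ex0 x0) (ex1 fun v i => PowerSeries.C (X1 v i)) (exQ Q s) (Sum.inl (dir i)))
    (tt x0 (fun v => PowerSeries.C (X0 v)) (fun v i => PowerSeries.C (X1 v i)) Q s
      (PowerSeries.X ^ e) (fun a => dir (c' a))
      (fun a => MvPolynomial.map PowerSeries.C (P' (dir (c' a)))))
    (Hp (ex0 x0) (ex1 fun v i => PowerSeries.C (X1 v i)) (exQ Q s))
    (Ha (ex0 x0) (ex1 fun v i => PowerSeries.C (X1 v i)) (exQ Q s) (Fin.last S))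
    e (e + 1) (fun i => C (C (θ i))) g
    (fun a => g (c' a) - PowerSeries.C (C (C (d (dir (c' a))))))
    (fun j => X (Sum.inl j)) (fun j => X (Sum.inr j)) hΦ1 hg1 h8 hΦ2 hΦ3
    (fun p : (J × (Fin ρ →₀ ℕ)) × ((Fin (S + 1) →₀ ℕ) × (Fin (S + 1) →₀ ℕ)) => α p.1.1)
    (fun p => β p.1.1) (fun p => p.1.2) (fun p => p.2.1) (fun p => p.2.2) hlead2
  exact LI_congr hE fun p => by rw [famF]

theorem fc_E6 : StE6 := by
  intro hPH hD2 hD3 hD4 hB1 hB2 hB3 hC1 hC2 hC3 hC4 hC5 hE1 hE2 hE3 hE4 hE5 k V Ξ Τ I _ _ _ _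
    _ _ _ _ P dp S r Q hQ f hf s R hrel
  classical
  obtain ⟨h, a, hne, hha⟩ := hrel
  obtain ⟨x0, hx0, hev⟩ := hB1 k V dp.X0 h hne
  have hx : aeval (xh x0 dp.X1 (th0 k)) h ≠ 0 := hB2 k V Ξ x0 dp.X1 h hev
  obtain ⟨ρ, i', c', e, lam, M, c, hρ, h1, h2, h3⟩ := hC5 hC1 hC2 hC3 hC4 (F0 k Ξ) I r
    (fun i ι => aeval (xh x0 dp.X1 (th0 k)) (pderiv (dp.dir ι) (f (s i))))
    (fun ι => aeval (xh x0 dp.X1 (th0 k)) (pderiv (dp.dir ι) (H13.Pe P R)))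
    (aeval (xh x0 dp.X1 (th0 k)) h) (fun i => aeval (xh x0 dp.X1 (th0 k)) (a i)) hx
    (fun ι => by
      have h4 := congrArg (aeval (xh x0 dp.X1 (th0 k))) (hha (dp.dir ι))
      rw [map_mul, map_sum] at h4
      rw [h4]
      exact Finset.sum_congr rfl fun i _ => map_mul _ _ _)
  obtain ⟨Φ, hΦ1, hΦ2, hΦ3, hΦ4⟩ := hE4 hPH hD2 hD3 hD4 k V Ξ I (F0 k Ξ) S ρ Q hQ f hf
    (fun a => s (i' a)) x0 dp.X1 (th0 k) dp.dir e lam M _ c h1 h2
  choose g hg1 hg2 using hΦ4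
  refine ⟨ρ, fun a => s (i' a), x0, e, c', hρ, fun J α β hli => ?_⟩
  exact E6_half hE1 Q (fun a => s (i' a)) x0 dp.X0 dp.X1 (th0 k) dp.dir e _ c c'
    (fun v => pderiv v P) _ Φ hΦ1 hΦ2 hΦ3 g hg1 hg2 h3
    (fun v => hE5 k V Ξ (F0 k Ξ) S ρ dp.X0 dp.X1 (th0 k) Φ hΦ1 (pderiv v P))
    (fun i => hB3 k V Ξ (F0 k Ξ) dp.X0 x0 hx0 dp.X1 (th0 k) P R (dp.dir i)) J α β
    (hE3 hE2 k V Ξ Τ I P dp S ρ (fun a i => PowerSeries.constantCoeff (c a i)) J α β hli)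

end Pool.Agent.Work.MP_499dc6_lc.FC
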