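import Mathlib
import Pool.Agent.Work.MP_499dc6_lc.FC.Stmts

/-!
Block FC, item F2: the weight of the family.
-/

set_option autoImplicit false

open MvPolynomial

namespace Pool.Agent.Work.MP_499dc6_lc.FC

open scoped PowerSeries
open Pool.Agent.Work.MP_499dc6_lc.SN

/-- item F2 -/
theorem fc_F2 : StF2 := by
  intro hW1 hW2 hW4 hF1 O V Ξ I _ _ _ _ S ρ x0 X0 x1 Q s b u p dir a a' h h' g g1 hWt hg hp D0 N
    α β δ γ γ' hα hβ
  obtain ⟨hHp, hHa, hGp⟩ := hW4 O (V ⊕ Fin ρ) (Ξ ⊕ Fin ρ) (S + 1) (exQ Q s) (Fin.last S)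
    (ex0 x0) (ex1 x1) a a' h h' g hWt
  obtain ⟨hC, hX, hmono, -, hsub, hmul⟩ := hW1 O (Var (Ξ ⊕ Fin ρ) (S + 1)) (wv a a')
  obtain ⟨-, hpow, hprod⟩ := hW2 O (Var (Ξ ⊕ Fin ρ) (S + 1)) (wv a a')
  have e1 : WD (wv a a') (∑ i, 1 * α i)
      (∏ i : Ξ, (X (Sum.inl (Sum.inl i)) : MvPolynomial (Var (Ξ ⊕ Fin ρ) (S + 1)) O) ^ α i) := by
    refine hprod Ξ Finset.univ (fun i => 1 * α i) _ fun i _ => ?_
    exact hpow 1 (α i) _ (hX 1 (Sum.inl (Sum.inl i)) le_rfl)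
  have e2 : WD (wv a a') (∑ i, g * β i)
      (∏ i, Gp (ex0 x0) (ex1 x1) (exQ Q s) (Sum.inl (dir i)) ^ β i) := by
    refine hprod I Finset.univ (fun i => g * β i) _ fun i _ => ?_
    exact hpow g (β i) _ (hGp (Sum.inl (dir i)))
  have e3 : WD (wv a a') (∑ j, h j * γ j)
      (∏ j, Hp (ex0 x0) (ex1 x1) (exQ Q s) j ^ γ j) := by
    refine hprod (Fin (S + 1)) Finset.univ (fun j => h j * γ j) _ fun j _ => ?_
    exact hpow (h j) (γ j) _ (hHp j)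
  have e4 : WD (wv a a') (∑ j, h' j * γ' j)
      (∏ j, Ha (ex0 x0) (ex1 x1) (exQ Q s) (Fin.last S) j ^ γ' j) := by
    refine hprod (Fin (S + 1)) Finset.univ (fun j => h' j * γ' j) _ fun j _ => ?_
    exact hpow (h' j) (γ' j) _ (hHa j)
  have e5 : WD (wv a a') (∑ c, g1 * δ c) (∏ c, tt x0 X0 x1 Q s b u p c ^ δ c) := by
    refine hprod (Fin ρ) Finset.univ (fun c => g1 * δ c) _ fun c _ => ?_
    refine hpow g1 (δ c) _ ?_
    unfold tt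
    refine hsub _ _ _ (hmono _ _ _ (hGp (Sum.inl (u c))) hg) ?_
    have h6 := hmul 0 g1 _ _ (hC 0 b) (hF1 hW1 hW2 O V Ξ S ρ X0 x1 (p c) g1 a a' (hp c))
    rwa [zero_add] at h6
  have d1 : ∑ i, 1 * α i ≤ D0 := by
    rw [← Finset.mul_sum, one_mul, ← Finsupp.degree_eq_sum]
    exact hα
  have d2 : ∑ i, g * β i ≤ g * N := by
    rw [← Finset.mul_sum, ← Finsupp.degree_eq_sum]
    exact Nat.mul_le_mul_left g hβ
  have d3 : ∑ c, g1 * δ c ≤ g1 * ∑ c, δ c := by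
    rw [Finset.mul_sum]
  unfold famF
  exact hmul _ _ _ _ (hmono _ _ _ (hmul _ _ _ _ (hmul _ _ _ _ e1 e2) e5)
    (add_le_add (add_le_add d1 d2) d3)) (hmul _ _ _ _ e3 e4)

end Pool.Agent.Work.MP_499dc6_lc.FC
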