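import Mathlib
import Pool.Agent.Work.MP_499dc6_lc.FC.Stmts
import Pool.Agent.Work.MP_499dc6_lc.SN.I_G4
import Pool.Agent.Work.MP_499dc6_lc.SN.I_G6

/-!
Block FC, item G6: the counting inequality.
-/

set_option autoImplicit false

open MvPolynomial

namespace Pool.Agent.Work.MP_499dc6_lc.FC

open scoped PowerSeries
open Pool.Agent.Work.MP_499dc6_lc.SN

/-- the generating function of the index set -/
theorem G6_gen (hG3 : StG3) (J : Type) [Fintype J] (S ρ : ℕ) (h h' : Fin S → ℕ) (d g1 : ℕ)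
    (z : ENNReal) :
    ∑' p : (J × (Fin ρ →₀ ℕ)) × ((Fin S →₀ ℕ) × (Fin S →₀ ℕ)),
      z ^ (d + g1 * ∑ a, p.1.2 a + (∑ j, h j * p.2.1 j + ∑ j, h' j * p.2.2 j)) =
    (Fintype.card J : ENNReal) * z ^ d * (∏ _a : Fin ρ, (1 - z ^ g1)⁻¹) *
      ((∏ j, (1 - z ^ h j)⁻¹) * ∏ j, (1 - z ^ h' j)⁻¹) := by
  have e1 : ∀ p1 : J × (Fin ρ →₀ ℕ),
      ∑' p2 : (Fin S →₀ ℕ) × (Fin S →₀ ℕ),
        z ^ (d + g1 * ∑ a, p1.2 a + (∑ j, h j * p2.1 j + ∑ j, h' j * p2.2 j)) =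
      z ^ (d + g1 * ∑ a, p1.2 a) * ((∏ j, (1 - z ^ h j)⁻¹) * ∏ j, (1 - z ^ h' j)⁻¹) := by
    intro p1
    simp only [pow_add z (d + g1 * ∑ a, p1.2 a), ENNReal.tsum_mul_left]
    rw [G4_inner hG3 S h h' z]
  have e2 : ∑' δ : Fin ρ →₀ ℕ, z ^ (d + g1 * ∑ a, δ a) =
      z ^ d * ∏ _a : Fin ρ, (1 - z ^ g1)⁻¹ := by
    simp only [pow_add z d, ENNReal.tsum_mul_left]
    have h3 := hG3 (Fin ρ) (fun _ => g1) z
    simp only [← Finset.mul_sum] at h3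
    rw [h3]
  rw [ENNReal.tsum_prod']
  simp only [e1, ENNReal.tsum_mul_right]
  rw [ENNReal.tsum_prod']
  have e3 : ∑' _j : J, ∑' δ : Fin ρ →₀ ℕ, z ^ (d + g1 * ∑ a, δ a) =
      (Fintype.card J : ENNReal) * z ^ d * (∏ _a : Fin ρ, (1 - z ^ g1)⁻¹) := by
    rw [tsum_fintype, Finset.sum_const, Finset.card_univ, nsmul_eq_mul, e2, mul_assoc]
  rw [e3]

/-- the generating function of the monomials -/
theorem G6_vars (Ξ : Type) [Fintype Ξ] (S : ℕ) (a a' : Fin S → ℕ) (ha : ∀ j, 1 ≤ a j)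
    (ha' : ∀ j, 1 ≤ a' j) {z : ℝ} (hz0 : 0 < z) (hz1 : z < 1) :
    ∏ i, (1 - ENNReal.ofReal z ^ wv (Ξ := Ξ) a a' i)⁻¹ =
      ENNReal.ofReal (((1 - z)⁻¹) ^ Fintype.card Ξ *
        ((∏ j, (1 - z ^ a j))⁻¹ * (∏ j, (1 - z ^ a' j))⁻¹)) := by
  rw [Fintype.prod_sum_type, Fintype.prod_sum_type]
  have e1 : ∏ i : Ξ, (1 - ENNReal.ofReal z ^ wv (Ξ := Ξ) a a' (Sum.inl i))⁻¹ =
      ENNReal.ofReal (((1 - z)⁻¹) ^ Fintype.card Ξ) := by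
    have e0 : ∀ i : Ξ, (1 - ENNReal.ofReal z ^ wv (Ξ := Ξ) a a' (Sum.inl i))⁻¹ =
        ENNReal.ofReal ((1 - z)⁻¹) := by
      intro i
      have := SN.G6_inv hz0 hz1 1 le_rfl
      rw [pow_one z] at this
      exact this
    rw [Finset.prod_congr rfl fun i _ => e0 i, Finset.prod_const, Finset.card_univ,
      ENNReal.ofReal_pow (inv_nonneg.2 (by linarith))]
  have e2 : ∏ j : Fin S, (1 - ENNReal.ofReal z ^ wv (Ξ := Ξ) a a' (Sum.inr (Sum.inl j)))⁻¹ =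
      ENNReal.ofReal ((∏ j, (1 - z ^ a j))⁻¹) := SN.G6_prod hz0 hz1 a ha
  have e3 : ∏ j : Fin S, (1 - ENNReal.ofReal z ^ wv (Ξ := Ξ) a a' (Sum.inr (Sum.inr j)))⁻¹ =
      ENNReal.ofReal ((∏ j, (1 - z ^ a' j))⁻¹) := SN.G6_prod hz0 hz1 a' ha'
  rw [e1, e2, e3, ENNReal.ofReal_mul, ENNReal.ofReal_mul]
  · exact (inv_pos.2 (SN.G6_pos hz0 hz1 a ha)).le
  · have : 0 < 1 - z := by linarith
    positivity

/-- item G6 -/
theorem fc_G6 : StG6 := by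
  intro hG1 hG2 hG3 hG5 O Ξ J _ _ _ _ S ρ a a' h h' hw d g1 hg1 F hLI hWD z hz0 hz1
  have hZ : ENNReal.ofReal z < 1 := by
    rw [← ENNReal.ofReal_one]
    exact (ENNReal.ofReal_lt_ofReal_iff one_pos).2 hz1
  have hwv : ∀ i, 1 ≤ wv (Ξ := Ξ ⊕ Fin ρ) a a' i := by
    intro i
    rcases i with i | i | i
    · exact le_refl 1
    · exact (hw i).1
    · exact (hw i).2.1
  have hh : ∀ j, 1 ≤ h j := fun j => (hw j).1.trans (hw j).2.2.1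
  have hh' : ∀ j, 1 ≤ h' j := fun j => (hw j).2.1.trans (hw j).2.2.2
  have h1 := hG2 _ _ (fun p : (J × (Fin ρ →₀ ℕ)) × ((Fin S →₀ ℕ) × (Fin S →₀ ℕ)) =>
    d + g1 * ∑ a, p.1.2 a + (∑ j, h j * p.2.1 j + ∑ j, h' j * p.2.2 j))
    (fun μ : Var (Ξ ⊕ Fin ρ) S →₀ ℕ => ∑ i, wv a a' i * μ i)
    (fun n => hG1 O (Var (Ξ ⊕ Fin ρ) S) _ (wv a a') hwv F _ hLI hWD n) (ENNReal.ofReal z) hZ
  have h2 := G6_gen hG3 J S ρ h h' d g1 (ENNReal.ofReal z)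
  have h3 := hG3 (Var (Ξ ⊕ Fin ρ) S) (wv a a') (ENNReal.ofReal z)
  have h4 := G6_vars (Ξ ⊕ Fin ρ) S a a' (fun j => (hw j).1) (fun j => (hw j).2.1) hz0 hz1
  have hPA := SN.G6_pos hz0 hz1 a fun j => (hw j).1
  have hPA' := SN.G6_pos hz0 hz1 a' fun j => (hw j).2.1
  have hPH := SN.G6_pos hz0 hz1 h hh
  have hPH' := SN.G6_pos hz0 hz1 h' hh'
  have hPG := SN.G6_pos hz0 hz1 (fun _ : Fin ρ => g1) fun _ => hg1
  have hz : 0 < 1 - z := by linarith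
  have h5 : (Fintype.card J : ENNReal) * ENNReal.ofReal z ^ d *
      (∏ _a : Fin ρ, (1 - ENNReal.ofReal z ^ g1)⁻¹) *
      ((∏ j, (1 - ENNReal.ofReal z ^ h j)⁻¹) * ∏ j, (1 - ENNReal.ofReal z ^ h' j)⁻¹) =
      ENNReal.ofReal ((Fintype.card J : ℝ) * z ^ d * (∏ _a : Fin ρ, (1 - z ^ g1))⁻¹ *
        ((∏ j, (1 - z ^ h j))⁻¹ * (∏ j, (1 - z ^ h' j))⁻¹)) := by
    rw [SN.G6_prod hz0 hz1 h hh, SN.G6_prod hz0 hz1 h' hh',
      SN.G6_prod hz0 hz1 (fun _ : Fin ρ => g1) (fun _ => hg1), ENNReal.ofReal_mul,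
      ENNReal.ofReal_mul, ENNReal.ofReal_mul, ENNReal.ofReal_mul, ENNReal.ofReal_natCast,
      ENNReal.ofReal_pow hz0.le]
    all_goals positivity
  have h6 : (Fintype.card J : ℝ) * z ^ d * (∏ _a : Fin ρ, (1 - z ^ g1))⁻¹ *
      ((∏ j, (1 - z ^ h j))⁻¹ * (∏ j, (1 - z ^ h' j))⁻¹) ≤
      ((1 - z)⁻¹) ^ (Fintype.card Ξ + ρ) *
        ((∏ j, (1 - z ^ a j))⁻¹ * (∏ j, (1 - z ^ a' j))⁻¹) := by
    rw [h2, h3, h4, h5, Fintype.card_sum, Fintype.card_fin] at h1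
    refine (ENNReal.ofReal_le_ofReal_iff ?_).1 h1
    positivity
  -- the ratio of one gate
  have hr : ∀ (m n : ℕ), 1 ≤ m → m ≤ n → (1 - z ^ n) / (1 - z ^ m) ≤ (n : ℝ) / m := by
    intro m n hm hmn
    have h7 := hG5 m n z hm hmn hz0.le hz1.le
    have h8 : z ^ m < 1 := pow_lt_one₀ hz0.le hz1 (by omega)
    have h9 : (0 : ℝ) < m := by exact_mod_cast hm
    rw [div_le_div_iff₀ (by linarith) h9]
    linarith
  have hrn : ∀ (m n : ℕ), 1 ≤ m → m ≤ n → 0 ≤ (1 - z ^ n) / (1 - z ^ m) := by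
    intro m n hm hmn
    have h8 : z ^ m < 1 := pow_lt_one₀ hz0.le hz1 (by omega)
    have h9 : z ^ n < 1 := pow_lt_one₀ hz0.le hz1 (by omega)
    exact div_nonneg (by linarith) (by linarith)
  have hg : (1 - z ^ g1) / (1 - z) ≤ (g1 : ℝ) := by
    have := hr 1 g1 le_rfl hg1
    simpa using this
  have hg0 : 0 ≤ (1 - z ^ g1) / (1 - z) := by
    have := hrn 1 g1 le_rfl hg1
    simpa using this
  calc (Fintype.card J : ℝ) * z ^ d * (1 - z) ^ Fintype.card Ξ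
      = ((Fintype.card J : ℝ) * z ^ d * (∏ _a : Fin ρ, (1 - z ^ g1))⁻¹ *
          ((∏ j, (1 - z ^ h j))⁻¹ * (∏ j, (1 - z ^ h' j))⁻¹)) *
          (((∏ _a : Fin ρ, (1 - z ^ g1)) * ((∏ j, (1 - z ^ h j)) * ∏ j, (1 - z ^ h' j))) *
            (1 - z) ^ Fintype.card Ξ) := by
        field_simp
    _ ≤ (((1 - z)⁻¹) ^ (Fintype.card Ξ + ρ) *
          ((∏ j, (1 - z ^ a j))⁻¹ * (∏ j, (1 - z ^ a' j))⁻¹)) *
          (((∏ _a : Fin ρ, (1 - z ^ g1)) * ((∏ j, (1 - z ^ h j)) * ∏ j, (1 - z ^ h' j))) *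
            (1 - z) ^ Fintype.card Ξ) :=
        mul_le_mul_of_nonneg_right h6 (by positivity)
    _ = ((1 - z ^ g1) / (1 - z)) ^ ρ *
          ∏ j, (((1 - z ^ h j) / (1 - z ^ a j)) * ((1 - z ^ h' j) / (1 - z ^ a' j))) := by
        rw [Finset.prod_mul_distrib, Finset.prod_div_distrib, Finset.prod_div_distrib, inv_pow,
          Finset.prod_const, Finset.card_univ, Fintype.card_fin, div_pow, pow_add]
        have hzk : (1 - z) ^ Fintype.card Ξ ≠ 0 := by positivity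
        have hzr : (1 - z) ^ ρ ≠ 0 := by positivity
        field_simp
    _ ≤ (g1 : ℝ) ^ ρ * ∏ j, ((h j : ℝ) / a j * ((h' j : ℝ) / a' j)) := by
        refine mul_le_mul (pow_le_pow_left₀ hg0 hg ρ) ?_ ?_ (by positivity)
        · refine Finset.prod_le_prod (fun j _ => ?_) fun j _ => ?_
          · exact mul_nonneg (hrn _ _ (hw j).1 (hw j).2.2.1) (hrn _ _ (hw j).2.1 (hw j).2.2.2)
          · exact mul_le_mul (hr _ _ (hw j).1 (hw j).2.2.1) (hr _ _ (hw j).2.1 (hw j).2.2.2)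
              (hrn _ _ (hw j).2.1 (hw j).2.2.2) (by positivity)
        · exact Finset.prod_nonneg fun j _ =>
            mul_nonneg (hrn _ _ (hw j).1 (hw j).2.2.1) (hrn _ _ (hw j).2.1 (hw j).2.2.2)

end Pool.Agent.Work.MP_499dc6_lc.FC
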