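import Mathlib
import Pool.Agent.Work.MP_499dc6_lc.FC.Stmts

/-!
# THEOREM FC, item WB: weighted Bezout bound
-/

set_option autoImplicit false

namespace Pool.Agent.Work.MP_499dc6_lc.FC

open MvPolynomial
open scoped PowerSeries
open Pool.Agent.Work.MP_499dc6_lc.SN

/-- the total degree of a partial derivative -/
lemma WB_pderiv {k V : Type} [CommRing k] [Fintype V] (u : V) (P : MvPolynomial V k) :
    (pderiv u P).totalDegree ≤ P.totalDegree := by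
  conv_lhs => rw [P.as_sum, map_sum]
  refine (totalDegree_finsetSum _ _).trans (Finset.sup_le fun μ hμ => ?_)
  rw [pderiv_monomial]
  refine (totalDegree_monomial_le _ _).trans ?_
  refine le_trans ?_ (le_totalDegree hμ)
  rw [Finsupp.sum_fintype _ _ (fun _ => rfl), Finsupp.sum_fintype _ _ (fun _ => rfl)]
  refine Finset.sum_le_sum fun i _ => ?_
  change (μ - Finsupp.single u 1 : V →₀ ℕ) i ≤ μ i
  rw [Finsupp.tsub_apply]
  exact Nat.sub_le _ _

lemma WB_map {k K V : Type} [CommRing k] [CommRing K] (φ : k →+* K) (P : MvPolynomial V k) :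
    (MvPolynomial.map φ P).totalDegree ≤ P.totalDegree :=
  Finset.sup_mono (support_map_subset _ _)

/-- item WB -/
theorem fc_WB : StWB := by
  intro hNB hW1 hW2 hW4 hF1 hF2 hG1 hG2 hG3 hG5 hG6 hG7 k V Ξ Τ I _ _ _ _ _ _ _ _ P dp hq S ρ Q
    s' hLI a a' h h' g g1 hWt hg1 hP hΞ
  obtain ⟨D0, hD0⟩ := hNB k V Ξ Τ I P dp hq
  obtain ⟨x0, e, c', hLI⟩ := hLI
  have hah := hWt.1
  have hg := hWt.2.1
  refine hG7 dp.D D0 g (Fintype.card Ξ) _ hg hΞ ?_
  intro N z hz0 hz1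
  obtain ⟨J, hJ, α, β, hα, hβ, hcard, hlin⟩ := hD0 N
  have hLIn := hLI J α β hlin
  have hdeg : ∀ b : Fin ρ, (MvPolynomial.map (PowerSeries.C (R := k))
      (pderiv (dp.dir (c' b)) P)).totalDegree ≤ g1 := fun b =>
    (WB_map _ _).trans ((WB_pderiv _ _).trans hP)
  have hWD := fun p : (J × (Fin ρ →₀ ℕ)) × ((Fin (S + 1) →₀ ℕ) × (Fin (S + 1) →₀ ℕ)) =>
    hF2 hW1 hW2 hW4 hF1 k⟦X⟧ V Ξ I S ρ x0 (fun v => (PowerSeries.C (dp.X0 v) : k⟦X⟧))
      (fun v i => PowerSeries.C (dp.X1 v i)) Q s' (PowerSeries.X ^ e) (fun a => dp.dir (c' a))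
      (fun a => MvPolynomial.map PowerSeries.C (pderiv (dp.dir (c' a)) P)) dp.dir a a' h h' g g1
      hWt hg1 hdeg D0 N (α p.1.1) (β p.1.1) p.1.2 p.2.1 p.2.2 (hα _) (hβ _)
  have h6 := hG6 hG1 hG2 hG3 hG5 k⟦X⟧ Ξ J (S + 1) ρ a a' h h' hah (D0 + g * N) g1
    (hg.trans hg1) _ hLIn hWD z hz0 hz1
  refine le_trans ?_ h6
  have hc : (((dp.D * N + Fintype.card Ξ).choose (Fintype.card Ξ) : ℕ) : ℝ) ≤
      (Fintype.card J : ℝ) := by exact_mod_cast hcard
  have hz2 : 0 ≤ z ^ (D0 + g * N) := by positivity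
  have hz3 : 0 ≤ (1 - z) ^ Fintype.card Ξ := pow_nonneg (by linarith) _
  exact mul_le_mul_of_nonneg_right (mul_le_mul_of_nonneg_right hc hz2) hz3

end Pool.Agent.Work.MP_499dc6_lc.FC
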