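import Mathlib
import Pool.Agent.Work.MP_499dc6_lc.FC.Stmts

/-!
Block FC, item WL: the bound for a circuit with levels.
-/

set_option autoImplicit false

open MvPolynomial

namespace Pool.Agent.Work.MP_499dc6_lc.FC

open scoped PowerSeries
open Pool.Agent.Work.MP_499dc6_lc.SN

/-- the numbers -/
theorem WL_num {κ ρ r n g : ℕ} {Pi Z : ℝ} (hκ : 1 ≤ κ) (hρ : ρ ≤ r) (hg : 1 ≤ g)
    (hPi : 1 ≤ Pi) (hZ0 : 0 ≤ Z) (h : (g : ℝ) ^ κ * Pi ≤ Z ^ κ) :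
    (g : ℝ) ^ κ * ((max g n : ℕ) : ℝ) ^ ρ * Pi ≤ Z ^ κ * (max Z (n : ℝ)) ^ r := by
  have hg0 : (1 : ℝ) ≤ g := by exact_mod_cast hg
  have hgk : 0 ≤ (g : ℝ) ^ κ := by positivity
  have h1 : (g : ℝ) ^ κ ≤ Z ^ κ := le_trans (le_mul_of_one_le_right hgk hPi) h
  have h2 : (g : ℝ) ≤ Z := (pow_le_pow_iff_left₀ (by linarith) hZ0 (by omega)).1 h1
  have h3 : ((max g n : ℕ) : ℝ) ≤ max Z (n : ℝ) := by
    rw [Nat.cast_max]
    exact max_le_max h2 le_rfl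
  have h4 : (1 : ℝ) ≤ max Z (n : ℝ) := (hg0.trans h2).trans (le_max_left _ _)
  have h5 : ((max g n : ℕ) : ℝ) ^ ρ ≤ (max Z (n : ℝ)) ^ r :=
    (pow_le_pow_left₀ (Nat.cast_nonneg _) h3 ρ).trans (pow_le_pow_right₀ h4 hρ)
  calc (g : ℝ) ^ κ * ((max g n : ℕ) : ℝ) ^ ρ * Pi
      = ((g : ℝ) ^ κ * Pi) * ((max g n : ℕ) : ℝ) ^ ρ := by ring
    _ ≤ Z ^ κ * (max Z (n : ℝ)) ^ r := mul_le_mul h h5 (by positivity) (by positivity)

/-- item WL -/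
theorem fc_WL : StWL := by
  intro hD1 hL0 hL3 hN6 hN7 hE hWB k V Ξ Τ I _ _ _ _ _ _ _ _ P dp hdp S t r n ht lev Q hQ f hf s R
    hR hn hk
  obtain ⟨ρ, s', hρ, hLI⟩ := hE k V Ξ Τ I P dp S r Q (hL0 k⟦X⟧ V S t lev Q hQ) f hf s R hR
  have hQ' : Lev t (exl t lev) (exQ Q s') := hD1 k⟦X⟧ V S t ρ lev Q s' ht hQ
  generalize hlev : exl t lev = lev' at hQ'
  obtain ⟨hmono, hs0⟩ := hN7 (S + 1) (Fintype.card Ξ) lev'
  have hs1 : 1 ≤ ss lev' (Fintype.card Ξ) (t - 1) := by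
    have := hmono (Nat.zero_le (t - 1))
    omega
  have hu : 1 ≤ ((S + 1) / Fintype.card Ξ + 1) * ss lev' (Fintype.card Ξ) (t - 1) :=
    Nat.mul_pos (Nat.succ_pos _) hs1
  have hWt := hL3 k⟦X⟧ (V ⊕ Fin ρ) (S + 1) t lev' (exQ Q s') (ss lev' (Fintype.card Ξ))
    (((S + 1) / Fintype.card Ξ + 1) * ss lev' (Fintype.card Ξ) (t - 1)) ht hQ' hmono
    (by omega) hu
  have h1 := hWB k V Ξ Τ I P dp hdp S ρ Q s' hLI _ _ _ _ _ (max _ n) hWt (le_max_left _ _)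
    (hn.trans (le_max_right _ _)) hk
  have h2 := hN6 (S + 1) t (Fintype.card Ξ) lev' hk ht (fun j => ⟨(hQ' j).1, (hQ' j).2.1⟩)
  have hPi : 1 ≤ ∏ j, (((wh (ss lev' (Fintype.card Ξ)) lev' j : ℕ) : ℝ) /
        ((wa (ss lev' (Fintype.card Ξ)) lev' j : ℕ) : ℝ) *
      (((wh' (ss lev' (Fintype.card Ξ)) (((S + 1) / Fintype.card Ξ + 1) *
          ss lev' (Fintype.card Ξ) (t - 1)) t lev' j : ℕ) : ℝ) /
        ((wa' (ss lev' (Fintype.card Ξ)) (((S + 1) / Fintype.card Ξ + 1) *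
          ss lev' (Fintype.card Ξ) (t - 1)) t lev' j : ℕ) : ℝ))) := by
    refine Finset.one_le_prod fun j _ => ?_
    obtain ⟨q1, q2, q3, q4⟩ := hWt.1 j
    have r1 : (1 : ℝ) ≤ ((wh (ss lev' (Fintype.card Ξ)) lev' j : ℕ) : ℝ) /
        ((wa (ss lev' (Fintype.card Ξ)) lev' j : ℕ) : ℝ) := by
      rw [one_le_div (by exact_mod_cast q1)]
      exact_mod_cast q3
    have r2 : (1 : ℝ) ≤ ((wh' (ss lev' (Fintype.card Ξ)) (((S + 1) / Fintype.card Ξ + 1) *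
          ss lev' (Fintype.card Ξ) (t - 1)) t lev' j : ℕ) : ℝ) /
        ((wa' (ss lev' (Fintype.card Ξ)) (((S + 1) / Fintype.card Ξ + 1) *
          ss lev' (Fintype.card Ξ) (t - 1)) t lev' j : ℕ) : ℝ) := by
      rw [one_le_div (by exact_mod_cast q2)]
      exact_mod_cast q4
    exact one_le_mul_of_one_le_of_one_le r1 r2
  have h3 := WL_num (n := n) hk hρ hWt.2.1 hPi (by positivity) h2
  refine h1.trans ?_
  calc _ = (Real.exp 1 * (Fintype.card Ξ : ℝ)) * _ := by ring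
    _ ≤ (Real.exp 1 * (Fintype.card Ξ : ℝ)) * _ := mul_le_mul_of_nonneg_left h3 (by positivity)
    _ = _ := by ring

end Pool.Agent.Work.MP_499dc6_lc.FC
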