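import Pool.Agent.Work.MP_499dc6_lc.FC.Main
import Pool.Agent.Work.MP_499dc6_lc.SN.All
import Pool.Agent.Work.MP_499dc6_lc.FC.I_A1
import Pool.Agent.Work.MP_499dc6_lc.FC.I_A2
import Pool.Agent.Work.MP_499dc6_lc.FC.I_A3
import Pool.Agent.Work.MP_499dc6_lc.FC.I_A4
import Pool.Agent.Work.MP_499dc6_lc.FC.I_B1
import Pool.Agent.Work.MP_499dc6_lc.FC.I_B2
import Pool.Agent.Work.MP_499dc6_lc.FC.I_B3
import Pool.Agent.Work.MP_499dc6_lc.FC.I_C1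
import Pool.Agent.Work.MP_499dc6_lc.FC.I_C2
import Pool.Agent.Work.MP_499dc6_lc.FC.I_C3
import Pool.Agent.Work.MP_499dc6_lc.FC.I_C4
import Pool.Agent.Work.MP_499dc6_lc.FC.I_C5
import Pool.Agent.Work.MP_499dc6_lc.FC.I_D1
import Pool.Agent.Work.MP_499dc6_lc.FC.I_D2
import Pool.Agent.Work.MP_499dc6_lc.FC.I_D3
import Pool.Agent.Work.MP_499dc6_lc.FC.I_D4
import Pool.Agent.Work.MP_499dc6_lc.FC.I_E1
import Pool.Agent.Work.MP_499dc6_lc.FC.I_E2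
import Pool.Agent.Work.MP_499dc6_lc.FC.I_E3
import Pool.Agent.Work.MP_499dc6_lc.FC.I_E4
import Pool.Agent.Work.MP_499dc6_lc.FC.I_E5
import Pool.Agent.Work.MP_499dc6_lc.FC.I_E6
import Pool.Agent.Work.MP_499dc6_lc.FC.I_F1
import Pool.Agent.Work.MP_499dc6_lc.FC.I_F2
import Pool.Agent.Work.MP_499dc6_lc.FC.I_G6
import Pool.Agent.Work.MP_499dc6_lc.FC.I_WB
import Pool.Agent.Work.MP_499dc6_lc.FC.I_WL
import Pool.Agent.Work.MP_499dc6_lc.FC.I_N8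
import Pool.Agent.Work.MP_499dc6_lc.FC.I_PD

/-!
THEOREM FC: all items put together.
-/

open MvPolynomial
open scoped PowerSeries

namespace Pool.Agent.Work.MP_499dc6_lc.FC

open Pool.Agent.Work.MP_499dc6_lc.SN

theorem fc_all (k : Type) [Field k]
    [CharZero k] (m t S r : ℕ) (hm : 1 ≤ m) (ht : 1 ≤ t) (lev : Fin S → ℕ)
    (Q : Fin S → MvPolynomial ((Fin m × Fin m) ⊕ Fin S) (LaurentSeries k)) (hQ : Lev t lev Q)
    (f : Fin S → MvPolynomial (Fin m × Fin m) (LaurentSeries k))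
    (hf : ∀ j, f j = ev X f (Q j)) (s : Fin r → Fin S) (R : MvPolynomial (Fin m × Fin m) k⟦X⟧)
    (hs : IsAlgebraic (Algebra.adjoin (LaurentSeries k) (Set.range fun i => f (s i)))
      (MvPolynomial.map (algebraMap k⟦X⟧ (LaurentSeries k))
        ((Matrix.of fun i j => X (i, j)).permanent + C PowerSeries.X * R))) :
    (m : ℝ) ^ (1 - 28 * (r : ℝ) / (m : ℝ) ^ 2) ≤
      250 * (1 + 160 * (S + 1) / (t * (m : ℝ) ^ 2)) ^ t := by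
  have hW2 : StW2 := sn_W2 sn_W1
  have hW3 : StW3 := sn_W3 sn_W1 hW2
  have hW4 : StW4 := sn_W4 sn_W1 hW2 hW3
  have hEX : StEX := sn_EX sn_CG
  have hGI : StGI := sn_GI sn_CR (sn_UQ sn_CG)
  have hPH : StPH := sn_PH hEX sn_AD sn_NZ hGI
  have hN6 : StN6 := sn_N6 sn_N1 sn_N2 sn_N3 sn_N4 sn_N5
  have hL3 : StL3 := sn_L3 sn_L1 sn_L2
  have hWL : WLc := fc_WL fc_D1 sn_L0 hL3 hN6 sn_N7
    (fun k V Ξ Τ I _ _ _ _ _ _ _ _ P dp S r Q hQ f hf s R hrel => by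
      obtain ⟨ρ, s', x0, e, c', hρ, h⟩ := fc_E6 hPH fc_D2 fc_D3 fc_D4 fc_B1 fc_B2 fc_B3 fc_C1 fc_C2
        fc_C3 fc_C4 fc_C5 fc_E1 fc_E2 fc_E3 fc_E4 fc_E5 k V Ξ Τ I P dp S r Q hQ f hf s R hrel
      exact ⟨ρ, s', hρ, x0, e, c', h⟩)
    (fc_WB sn_NB sn_W1 hW2 hW4 fc_F1 fc_F2 sn_G1 sn_G2 sn_G3 sn_G5 fc_G6 sn_G7)
  exact fc_main hWL fc_A1 fc_A2 sn_C1 fc_A3 fc_A4 fc_N8 fc_PD k m t S r hm ht lev Q hQ f hf s R hs

end Pool.Agent.Work.MP_499dc6_lc.FC
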