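import Pool.Agent.Work.MP_499dc6_lc.SN.Stmts2

/-!
Definitions for THEOREM FC (the permanent as an algebraic function of few outputs of a circuit).
-/

open MvPolynomial
open scoped PowerSeries

namespace Pool.Agent.Work.MP_499dc6_lc.FC

open Pool.Agent.Work.MP_499dc6_lc.SN

/-- The gradient of `G` is a combination of the gradients of the `g i`. -/
def Rel {O V : Type} [CommRing O] {r : ℕ} (g : Fin r → MvPolynomial V O)
    (G : MvPolynomial V O) : Prop :=
  ∃ (h : MvPolynomial V O) (a : Fin r → MvPolynomial V O), h ≠ 0 ∧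
    ∀ u, h * pderiv u G = ∑ i, a i * pderiv u (g i)

section circuit
variable {O V Ξ : Type} [CommRing O] [Fintype Ξ] {ρ S : ℕ}

/-- The base point of the extended circuit (the new variables are zero there). -/
def ex0 (x0 : V → O) : V ⊕ Fin ρ → O := Sum.elim x0 fun _ => 0

/-- The directions of the extended section: the new variables are new coordinates. -/
def ex1 (x1 : V → Ξ → O) : V ⊕ Fin ρ → Ξ ⊕ Fin ρ → O :=
  Sum.elim (fun v => Sum.elim (x1 v) fun _ => 0)
    fun a => Sum.elim (fun _ => 0) fun b => if a = b then 1 else 0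

/-- The extended circuit: one more gate `∑ a, Λ_a * (gate s a)`, `Λ_a` new variables. -/
noncomputable def exQ (Q : Fin S → MvPolynomial (V ⊕ Fin S) O) (s : Fin ρ → Fin S) :
    Fin (S + 1) → MvPolynomial ((V ⊕ Fin ρ) ⊕ Fin (S + 1)) O :=
  Fin.snoc (α := fun _ => MvPolynomial ((V ⊕ Fin ρ) ⊕ Fin (S + 1)) O)
    (fun j => rename (Sum.map Sum.inl Fin.castSucc) (Q j))
    (∑ a, X (Sum.inl (Sum.inr a)) * X (Sum.inr (Fin.castSucc (s a))))

/-- The polynomials of the extended circuit. -/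
noncomputable def exf (f : Fin S → MvPolynomial V O) (s : Fin ρ → Fin S) :
    Fin (S + 1) → MvPolynomial (V ⊕ Fin ρ) O :=
  Fin.snoc (α := fun _ => MvPolynomial (V ⊕ Fin ρ) O) (fun j => rename Sum.inl (f j))
    (∑ a, X (Sum.inr a) * rename Sum.inl (f (s a)))

/-- The levels of the extended circuit. -/
def exl (t : ℕ) (lev : Fin S → ℕ) : Fin (S + 1) → ℕ := Fin.snoc (α := fun _ => ℕ) lev t

/-- The restriction of the polynomial `p` to the section (in the big polynomial ring). -/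
noncomputable def pp (X0 : V → O) (x1 : V → Ξ → O) (p : MvPolynomial V O) :
    MvPolynomial (Var (Ξ ⊕ Fin ρ) (S + 1)) O :=
  aeval (fun v => ptx (ex0 X0) (ex1 x1) (Sum.inl v)) p

/-- The polynomials `t_a`: the derivative in a direction, by the adjoint gates, minus `b` times the
restriction of `p a`. -/
noncomputable def tt (x0 X0 : V → O) (x1 : V → Ξ → O) (Q : Fin S → MvPolynomial (V ⊕ Fin S) O)
    (s : Fin ρ → Fin S) (b : O) (u : Fin ρ → V) (p : Fin ρ → MvPolynomial V O) (a : Fin ρ) :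
    MvPolynomial (Var (Ξ ⊕ Fin ρ) (S + 1)) O :=
  Gp (ex0 x0) (ex1 x1) (exQ Q s) (Sum.inl (u a)) - C b * pp X0 x1 (p a)

/-- The family of products. -/
noncomputable def famF {I : Type} [Fintype I] (x0 X0 : V → O) (x1 : V → Ξ → O)
    (Q : Fin S → MvPolynomial (V ⊕ Fin S) O) (s : Fin ρ → Fin S) (b : O) (u : Fin ρ → V)
    (p : Fin ρ → MvPolynomial V O) (dir : I → V) (α : Ξ →₀ ℕ) (β : I →₀ ℕ) (δ : Fin ρ →₀ ℕ)
    (γ γ' : Fin (S + 1) →₀ ℕ) : MvPolynomial (Var (Ξ ⊕ Fin ρ) (S + 1)) O :=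
  ((∏ i, X (Sum.inl (Sum.inl i)) ^ α i) *
    (∏ i, Gp (ex0 x0) (ex1 x1) (exQ Q s) (Sum.inl (dir i)) ^ β i) *
      ∏ a, tt x0 X0 x1 Q s b u p a ^ δ a) *
    ((∏ j, Hp (ex0 x0) (ex1 x1) (exQ Q s) j ^ γ j) *
      ∏ j, Ha (ex0 x0) (ex1 x1) (exQ Q s) (Fin.last S) j ^ γ' j)

end circuit

/-- The field of the generic point of the section. -/
abbrev F0 (k Ξ : Type) [Field k] : Type := FractionRing (H13.TR k Ξ)

/-- The coordinates of the generic point. -/
noncomputable def th0 (k : Type) {Ξ : Type} [Field k] (i : Ξ) : F0 k Ξ :=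
  algebraMap (H13.TR k Ξ) (F0 k Ξ) (H13.thT k i)

/-- The point of the section with coordinates `θ`, in power series over `F`. -/
noncomputable def xh {k V Ξ F : Type} [Field k] [Field F] [Algebra k F] [Fintype Ξ]
    (x0 : V → k⟦X⟧) (X1 : V → Ξ → k) (θ : Ξ → F) (v : V) : F⟦X⟧ :=
  algebraMap k⟦X⟧ F⟦X⟧ (x0 v) + ∑ i, PowerSeries.C (algebraMap k F (X1 v i) * θ i)

/-- The ring of the perturbed values. -/
abbrev RR (F : Type) [Field F] (ρ S : ℕ) : Type :=
  MvPolynomial (Fin (S + 1) ⊕ Fin (S + 1)) (MvPolynomial (Fin ρ) F)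

end Pool.Agent.Work.MP_499dc6_lc.FC
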