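import Mathlib
import Pool.Agent.Work.MP_499dc6_lc.FC.Stmts

/-!
THEOREM FC, item C1: a basis among the rows.
-/

open MvPolynomial
open scoped PowerSeries

namespace Pool.Agent.Work.MP_499dc6_lc.FC

open Pool.Agent.Work.MP_499dc6_lc.SN

theorem fc_C1 : StC1 := by
  intro L I _ r J
  obtain ⟨κ, a, ha, hspan, hli⟩ := exists_linearIndependent' L J
  have hfin : Finite κ := Finite.of_injective a ha
  have hft : Fintype κ := Fintype.ofFinite κ
  let e := Fintype.equivFin κ
  refine ⟨Fintype.card κ, fun b => a (e.symm b), ?_, ?_, fun i => ?_⟩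
  · have h := Fintype.card_le_of_injective a ha
    rwa [Fintype.card_fin] at h
  · exact hli.comp e.symm e.symm.injective
  · have h1 : J i ∈ Submodule.span L (Set.range (J ∘ a)) := by
      rw [hspan]
      exact Submodule.subset_span ⟨i, rfl⟩
    have h2 : (Set.range fun b => J (a (e.symm b))) = Set.range (J ∘ a) :=
      e.symm.surjective.range_comp (J ∘ a)
    rw [h2]
    exact h1

end Pool.Agent.Work.MP_499dc6_lc.FC
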