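import Mathlib
import Pool.Agent.Work.MP_499dc6_lc.FC.Stmts

/-!
THEOREM FC, item E2: the lowest degree in the new variables.
-/

open MvPolynomial
open scoped PowerSeries

namespace Pool.Agent.Work.MP_499dc6_lc.FC

open Pool.Agent.Work.MP_499dc6_lc.SN

theorem E2_coeff {F : Type} [Field F] {ρ : ℕ} (G : MvPolynomial (Fin ρ) F) (δ δ0 : Fin ρ →₀ ℕ) :
    coeff δ0 (G * ∏ a, X a ^ δ a) = if δ ≤ δ0 then coeff (δ0 - δ) G else 0 := by
  have h : (∏ a, (X a : MvPolynomial (Fin ρ) F) ^ δ a) = monomial δ 1 := by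
    rw [monomial_eq, C_1, one_mul, Finsupp.prod_fintype]
    intro i
    simp
  rw [h, coeff_mul_monomial']
  simp

theorem E2_const {F I : Type} [Field F] [Fintype I] {ρ : ℕ} (y : F) (d : I → F) (β : I →₀ ℕ)
    (c : Fin ρ → I → F) :
    coeff 0 (C y * ∏ i, (C (d i) + ∑ a, C (c a i) * X a : MvPolynomial (Fin ρ) F) ^ β i) =
      y * ∏ i, d i ^ β i := by
  have h : coeff 0 (C y * ∏ i, (C (d i) + ∑ a, C (c a i) * X a : MvPolynomial (Fin ρ) F) ^ β i) =
      constantCoeff (C y * ∏ i, (C (d i) + ∑ a, C (c a i) * X a : MvPolynomial (Fin ρ) F) ^ β i) :=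
    rfl
  rw [h, map_mul, map_prod, constantCoeff_C]
  congr 1
  refine Finset.prod_congr rfl fun i _ => ?_
  rw [map_pow, map_add, constantCoeff_C, map_sum]
  simp

theorem fc_E2 : StE2 := by
  classical
  intro k F J I _ _ _ _ ρ y d β c hli
  rw [linearIndependent_iff'] at hli ⊢
  intro s g hg
  by_contra hcon
  push Not at hcon
  obtain ⟨p1, hp1, hp1g⟩ := hcon
  have hne : (s.filter fun p => g p ≠ 0).Nonempty := ⟨p1, Finset.mem_filter.2 ⟨hp1, hp1g⟩⟩
  obtain ⟨p0, hp0, hmin⟩ := Finset.exists_min_image _ (fun p : J × (Fin ρ →₀ ℕ) => p.2.degree) hne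
  obtain ⟨hp0s, hp0g⟩ := Finset.mem_filter.1 hp0
  have h1 := congrArg (coeff p0.2) hg
  rw [coeff_zero, coeff_sum] at h1
  have hterm : ∀ p ∈ s, coeff p0.2 (g p • ((C (y p.1) *
      ∏ i, (C (d i) + ∑ a, C (c a i) * X a) ^ β p.1 i) * ∏ a, X a ^ p.2 a :
        MvPolynomial (Fin ρ) F)) =
      if p.2 = p0.2 then g p • (y p.1 * ∏ i, d i ^ β p.1 i) else 0 := by
    intro p hp
    rw [coeff_smul, E2_coeff]
    by_cases hgp : g p = 0
    · rw [hgp, zero_smul, zero_smul, ite_self]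
    · by_cases hle : p.2 ≤ p0.2
      · have hd : p0.2.degree ≤ p.2.degree := hmin p (Finset.mem_filter.2 ⟨hp, hgp⟩)
        have heq : p.2 = p0.2 := by
          obtain ⟨r, hr⟩ := exists_add_of_le hle
          rw [hr, map_add] at hd
          have h0 : r.degree = 0 := by omega
          have h2 : r = 0 := (Finsupp.degree_eq_zero_iff r).1 h0
          rw [hr, h2, add_zero]
        rw [if_pos hle, if_pos heq, heq, tsub_self, E2_const]
      · have hne' : p.2 ≠ p0.2 := fun h => hle (h ▸ le_rfl)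
        rw [if_neg hle, if_neg hne', smul_zero]
  rw [Finset.sum_congr rfl hterm, ← Finset.sum_filter] at h1
  set s1 := s.filter fun p : J × (Fin ρ →₀ ℕ) => p.2 = p0.2 with hs1
  have himg : ∑ p ∈ s1, g p • (y p.1 * ∏ i, d i ^ β p.1 i) =
      ∑ j ∈ s1.image Prod.fst, g (j, p0.2) • (y j * ∏ i, d i ^ β j i) := by
    rw [Finset.sum_image]
    · refine Finset.sum_congr rfl fun p hp => ?_
      have h2 : p.2 = p0.2 := (Finset.mem_filter.1 hp).2
      rw [← h2]
    · intro p hp q hq hpq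
      have h2 : p.2 = p0.2 := (Finset.mem_filter.1 hp).2
      have h3 : q.2 = p0.2 := (Finset.mem_filter.1 hq).2
      exact Prod.ext hpq (h2.trans h3.symm)
  rw [himg] at h1
  have h2 := hli (s1.image Prod.fst) (fun j => g (j, p0.2)) h1 p0.1
    (Finset.mem_image.2 ⟨p0, Finset.mem_filter.2 ⟨hp0s, rfl⟩, rfl⟩)
  exact hp0g h2

end Pool.Agent.Work.MP_499dc6_lc.FC
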