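import Pool.Agent.Work.MP_499dc6_lc.FC.Stmts
import Pool.Agent.Work.MP_499dc6_lc.SN.Main

/-!
THEOREM FC: assembly.
-/

open MvPolynomial
open scoped PowerSeries

namespace Pool.Agent.Work.MP_499dc6_lc.FC

open Pool.Agent.Work.MP_499dc6_lc.SN

/-- The conclusion of `WL`. -/
def WLc : Prop := ∀ (k V Ξ Τ I : Type) [Field k] [IsAlgClosed k] [Fintype V] [DecidableEq V]
  [Fintype Ξ] [Fintype Τ] [IsEmpty Τ] [Fintype I] (P : MvPolynomial V k)
  (dp : H97.Deep k V Ξ Τ I P) (_ : ∀ x : Ξ → k, (∀ i, eval x (dp.q i) = 0) → x = 0) (S t r n : ℕ)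
  (_ : 1 ≤ t) (lev : Fin S → ℕ) (Q : Fin S → MvPolynomial (V ⊕ Fin S) k⟦X⟧) (_ : Lev t lev Q)
  (f : Fin S → MvPolynomial V k⟦X⟧) (_ : ∀ j, f j = ev X f (Q j)) (s : Fin r → Fin S)
  (R : MvPolynomial V k⟦X⟧) (_ : Rel (fun i => f (s i)) (H13.Pe P R)) (_ : P.totalDegree ≤ n)
  (_ : 1 ≤ Fintype.card Ξ),
  (dp.D : ℝ) ^ Fintype.card Ξ ≤ Real.exp 1 * (Fintype.card Ξ : ℝ) *
    (3 * Real.exp 2 * (1 + 5.5 * (((S + 1 : ℕ) : ℝ) / (Fintype.card Ξ : ℝ)) / t) ^ t) ^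
      Fintype.card Ξ *
    (max (3 * Real.exp 2 * (1 + 5.5 * (((S + 1 : ℕ) : ℝ) / (Fintype.card Ξ : ℝ)) / t) ^ t)
      (n : ℝ)) ^ r

theorem fc_main (hWL : WLc) (hA1 : StA1) (hA2 : StA2) (hC1 : SN.StC1) (hA3 : StA3) (hA4 : StA4)
    (hN8 : StN8) (hPD : StPD) (k : Type) [Field k]
    [CharZero k] (m t S r : ℕ) (hm : 1 ≤ m) (ht : 1 ≤ t) (lev : Fin S → ℕ)
    (Q : Fin S → MvPolynomial ((Fin m × Fin m) ⊕ Fin S) (LaurentSeries k)) (hQ : Lev t lev Q)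
    (f : Fin S → MvPolynomial (Fin m × Fin m) (LaurentSeries k))
    (hf : ∀ j, f j = ev X f (Q j)) (s : Fin r → Fin S) (R : MvPolynomial (Fin m × Fin m) k⟦X⟧)
    (hs : IsAlgebraic (Algebra.adjoin (LaurentSeries k) (Set.range fun i => f (s i)))
      (MvPolynomial.map (algebraMap k⟦X⟧ (LaurentSeries k))
        ((Matrix.of fun i j => X (i, j)).permanent + C PowerSeries.X * R))) :
    (m : ℝ) ^ (1 - 28 * (r : ℝ) / (m : ℝ) ^ 2) ≤
      250 * (1 + 160 * (S + 1) / (t * (m : ℝ) ^ 2)) ^ t := by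
  have : CharZero (LaurentSeries k) :=
    charZero_of_injective_ringHom
      ((algebraMap k⟦X⟧ (LaurentSeries k)).comp (PowerSeries.C (R := k))).injective
  have hrel := hA1 (LaurentSeries k) (Fin m × Fin m) r (fun i => f (s i)) _ hs
  obtain ⟨Q1, f1, d, hQ1, hf1, hd⟩ := hA2 k (Fin m × Fin m) S t lev Q hQ f hf
  have hrel1 := hA3 hC1 k (Fin m × Fin m) r (fun i => f (s i)) (fun i => f1 (s i))
    (fun i => d (s i)) _ (fun i => hd (s i)) hrel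
  rw [Pe_perm] at hrel1
  obtain ⟨Q2, f2, R2, hQ2, hf2, hrel2⟩ := hA4 k (AlgebraicClosure k) (Fin m × Fin m)
    (algebraMap k (AlgebraicClosure k)) S t r lev (H97.permP m k) Q1 hQ1 f1 hf1 s R hrel1
  have hperm : MvPolynomial.map (algebraMap k (AlgebraicClosure k)) (H97.permP m k) =
      H97.permP m (AlgebraicClosure k) := by
    simp [H97.permP, Matrix.permanent]
  rw [hperm] at hrel2
  have hc : CharZero (AlgebraicClosure k) :=
    charZero_of_injective_algebraMap (FaithfulSMul.algebraMap_injective k (AlgebraicClosure k))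
  obtain ⟨a, ha⟩ : ∃ a, a = (m - 1) / 9 := ⟨_, rfl⟩
  refine hN8 m a S t r hm ht (by omega) (by omega) fun ha1 => ?_
  obtain ⟨n, hn⟩ : ∃ n, n + 1 = 3 * a := ⟨3 * a - 1, by omega⟩
  obtain ⟨dp, hD, hz⟩ := Pool.Agent.Work.MP_104cea_lc.SH.sn_deep (AlgebraicClosure k) a n m
    (by omega) hn (by omega)
  have hcard : Fintype.card (Fin (n + 1) × Fin (a + 1)) = 3 * a * (a + 1) := by
    rw [Fintype.card_prod, Fintype.card_fin, Fintype.card_fin, hn]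
  have hpos : 1 ≤ 3 * a * (a + 1) := Nat.mul_pos (by omega) (by omega)
  have h3 := hWL (AlgebraicClosure k) (Fin m × Fin m) (Fin (n + 1) × Fin (a + 1)) Empty
    (Fin (2 * a) × Fin (n + 1)) (H97.permP m (AlgebraicClosure k)) dp hz S t r m ht lev Q2 hQ2 f2
    hf2 s R2 hrel2 (hPD (AlgebraicClosure k) m) (by rw [hcard]; exact hpos)
  rw [hcard, hD] at h3
  exact h3

end Pool.Agent.Work.MP_499dc6_lc.FC
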